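import Pool.Agent.HL.Defs

/-! HL-15: counting for the base sets. -/

set_option autoImplicit false

namespace Pool.Agent.HL

namespace BaseNum

/-- the inverse as a multiplicative function -/
private noncomputable def inv0 : ℕ →* ℝ where
  toFun d := (d : ℝ)⁻¹
  map_one' := by simp
  map_mul' a b := by
    push_cast
    rw [mul_inv]

private theorem key (s : Finset ℕ) (hs : ∀ p ∈ s, p.Prime) (m : ℕ) (hm : m ≠ 0) (E : Finset ℕ)
    (hE : ∀ d ∈ E, d ≠ 0 ∧ m ∣ d ∧ d.primeFactors ⊆ s) :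
    ∑ d ∈ E, (1 : ℝ) / (d : ℝ) ≤ (1 / (m : ℝ)) * ∏ p ∈ s, (1 - (p : ℝ)⁻¹)⁻¹ := by
  classical
  have h1 := (EulerProduct.summable_and_hasSum_factoredNumbers_prod_filter_prime_geometric
    (f := inv0) (fun {p} hp => by
      change ‖((p : ℝ)⁻¹ : ℝ)‖ < 1
      rw [norm_inv, Real.norm_natCast]
      exact inv_lt_one_of_one_lt₀ (by exact_mod_cast hp.one_lt)) s).2
  have h2 : (s.filter fun p => p.Prime) = s := Finset.filter_true_of_mem hs
  rw [h2] at h1
  have h3 : ∀ d ∈ E, ∃ e, d = m * e ∧ e ∈ Nat.factoredNumbers s := by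
    intro d hd
    obtain ⟨h0, ⟨e, he⟩, hf⟩ := hE d hd
    refine ⟨e, he, ?_⟩
    have he0 : e ≠ 0 := by
      rintro rfl
      exact h0 (by rw [he, mul_zero])
    rw [Nat.mem_factoredNumbers']
    intro p hp hpe
    apply hf
    rw [Nat.mem_primeFactors]
    exact ⟨hp, he ▸ hpe.mul_left m, h0⟩
  set E' := E.image (fun d => d / m) with hE'
  have hinj : Set.InjOn (fun d => d / m) (E : Set ℕ) := by
    intro x hx y hy hxy
    obtain ⟨a, ha, _⟩ := h3 x hx
    obtain ⟨b, hb, _⟩ := h3 y hy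
    have hm' := Nat.pos_of_ne_zero hm
    simp only [ha, hb, Nat.mul_div_cancel_left _ hm'] at hxy
    rw [ha, hb, hxy]
  have h4 : ∀ e ∈ E', e ∈ Nat.factoredNumbers s := by
    intro e he
    obtain ⟨d, hd, rfl⟩ := Finset.mem_image.1 he
    obtain ⟨a, ha, ha'⟩ := h3 d hd
    simp only [ha, Nat.mul_div_cancel_left _ (Nat.pos_of_ne_zero hm)]
    exact ha'
  have h5 : ∑ d ∈ E, (1 : ℝ) / (d : ℝ) = (1 / (m : ℝ)) * ∑ e ∈ E', inv0 e := by
    rw [hE', Finset.sum_image hinj, Finset.mul_sum]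
    refine Finset.sum_congr rfl fun d hd => ?_
    obtain ⟨a, ha, _⟩ := h3 d hd
    rw [ha, Nat.mul_div_cancel_left _ (Nat.pos_of_ne_zero hm)]
    change _ = 1 / (m : ℝ) * (a : ℝ)⁻¹
    push_cast
    rw [one_div_mul_eq_div, one_div, mul_inv, div_eq_mul_inv, mul_comm]
  rw [h5]
  refine mul_le_mul_of_nonneg_left ?_ (by positivity)
  rw [← Finset.sum_subtype_of_mem (fun e => inv0 e) h4]
  exact sum_le_hasSum _ (fun i _ => inv_nonneg.2 (Nat.cast_nonneg _)) h1

private theorem cases5 (q : ℕ) (hq : q.Prime) : q = 2 ∨ q = 3 ∨ 5 ≤ q := by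
  have h2 := hq.two_le
  rcases lt_or_ge q 5 with h | h
  · interval_cases q
    · exact Or.inl rfl
    · exact Or.inr (Or.inl rfl)
    · exact absurd hq (by norm_num)
  · exact Or.inr (Or.inr h)

private theorem cases7 (q : ℕ) (hq : q.Prime) (h5 : 5 ≤ q) : q = 5 ∨ 7 ≤ q := by
  rcases lt_or_ge q 7 with h | h
  · interval_cases q
    · exact Or.inl rfl
    · exact absurd hq (by norm_num)
  · exact Or.inr h

private theorem fac_eq (q : ℕ) (hq : 2 ≤ q) : (1 - (q : ℝ)⁻¹)⁻¹ = 1 + 1 / ((q : ℝ) - 1) := by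
  have h : (2 : ℝ) ≤ q := by exact_mod_cast hq
  have h0 : (q : ℝ) ≠ 0 := by linarith
  have h1 : (q : ℝ) - 1 ≠ 0 := by
    intro h'
    linarith
  rw [one_sub_inv_eq h0]
  field_simp
  ring
where
  one_sub_inv_eq {x : ℝ} (hx : x ≠ 0) : (1 - x⁻¹)⁻¹ = x / (x - 1) := by
    rw [← one_div x, one_sub_div hx, inv_div]

private theorem fac_le (q c : ℕ) (hc : 2 ≤ c) (hq : c ≤ q) :
    (1 - (q : ℝ)⁻¹)⁻¹ ≤ 1 + 1 / ((c : ℝ) - 1) := by
  rw [fac_eq q (hc.trans hq)]
  have h1 : (2 : ℝ) ≤ c := by exact_mod_cast hc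
  have h2 : (c : ℝ) ≤ q := by exact_mod_cast hq
  have h3 : (0 : ℝ) < (c : ℝ) - 1 := by linarith
  have := one_div_le_one_div_of_le h3 (show (c : ℝ) - 1 ≤ (q : ℝ) - 1 by linarith)
  linarith

private theorem fac_pos (q : ℕ) (hq : q.Prime) : 0 < (1 - (q : ℝ)⁻¹)⁻¹ := by
  rw [fac_eq q hq.two_le]
  have h : (2 : ℝ) ≤ q := by exact_mod_cast hq.two_le
  have h3 : (0 : ℝ) < (q : ℝ) - 1 := by linarith
  positivity

private theorem two_prod (q r : ℕ) (hq : q.Prime) (hr : r.Prime) (hqr : q ≠ r) (A B : ℕ)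
    (hA : 2 ≤ A) (hB : 2 ≤ B) (h : (A ≤ q ∧ B ≤ r) ∨ (A ≤ r ∧ B ≤ q)) :
    (1 - (q : ℝ)⁻¹)⁻¹ * (1 - (r : ℝ)⁻¹)⁻¹ ≤
      (1 + 1 / ((A : ℝ) - 1)) * (1 + 1 / ((B : ℝ) - 1)) := by
  have hA' : (2 : ℝ) ≤ A := by exact_mod_cast hA
  have hB' : (2 : ℝ) ≤ B := by exact_mod_cast hB
  have hA1 : (0 : ℝ) < (A : ℝ) - 1 := by linarith
  have hB1 : (0 : ℝ) < (B : ℝ) - 1 := by linarith
  rcases h with ⟨h1, h2⟩ | ⟨h1, h2⟩
  · exact mul_le_mul (fac_le q A hA h1) (fac_le r B hB h2) (fac_pos r hr).le (by positivity)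
  · rw [mul_comm]
    exact mul_le_mul (fac_le r A hA h1) (fac_le q B hB h2) (fac_pos q hq).le (by positivity)

/-- the product over the other primes -/
private theorem rbound (s : Finset ℕ) (hs : ∀ p ∈ s, p.Prime)
    (h : s.card ≤ 2 ∨ (s.card = 3 ∧ ¬ ({2, 3} ⊆ s))) (p : ℕ) (hp : p ∈ s) :
    (p ≠ 2 → ∏ q ∈ s.erase p, (1 - (q : ℝ)⁻¹)⁻¹ ≤ (p : ℝ) - 1) ∧
      (p = 2 → ∏ q ∈ s.erase p, (1 - (q : ℝ)⁻¹)⁻¹ ≤ 3 / 2) := by
  have hpp := hs p hp
  have hc : (s.erase p).card = s.card - 1 := Finset.card_erase_of_mem hp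
  have hpos : 1 ≤ s.card := Finset.card_pos.2 ⟨p, hp⟩
  have hp3 : p ≠ 2 → (3 : ℝ) ≤ p := fun h2 => by
    have := hpp.two_le
    have h3 : 3 ≤ p := by omega
    exact_mod_cast h3
  have hmem : ∀ q ∈ s.erase p, q.Prime ∧ q ≠ p ∧ q ∈ s := fun q hq =>
    ⟨hs q (Finset.mem_of_mem_erase hq), Finset.ne_of_mem_erase hq, Finset.mem_of_mem_erase hq⟩
  rcases h with h | ⟨h, h23⟩
  · have : (s.erase p).card = 0 ∨ (s.erase p).card = 1 := by omega
    rcases this with h0 | h0
    · rw [Finset.card_eq_zero.1 h0, Finset.prod_empty]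
      exact ⟨fun h2 => by linarith [hp3 h2], fun _ => by norm_num⟩
    · obtain ⟨q, hq⟩ := Finset.card_eq_one.1 h0
      have hq' := hmem q (by rw [hq]; exact Finset.mem_singleton_self q)
      rw [hq, Finset.prod_singleton]
      constructor
      · intro h2
        have := fac_le q 2 le_rfl hq'.1.two_le
        norm_num at this
        linarith [hp3 h2]
      · intro h2
        have h3 : 3 ≤ q := by
          have := hq'.1.two_le
          have := hq'.2.1
          omega
        have := fac_le q 3 (by norm_num) h3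
        norm_num at this
        linarith
  · have h0 : (s.erase p).card = 2 := by omega
    obtain ⟨q, r, hqr, hqr'⟩ := Finset.card_eq_two.1 h0
    have hq := hmem q (by rw [hqr']; simp)
    have hr := hmem r (by rw [hqr']; simp)
    rw [hqr', Finset.prod_pair hqr]
    have hno : ∀ x ∈ s, ∀ y ∈ s, ¬ (x = 2 ∧ y = 3) := by
      rintro x hx y hy ⟨rfl, rfl⟩
      apply h23
      intro z hz
      rcases Finset.mem_insert.1 hz with h | h
      · rw [h]
        exact hx
      · rw [Finset.mem_singleton.1 h]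
        exact hy
    have q5 := cases5 q hq.1
    have r5 := cases5 r hr.1
    have p5 := cases5 p hpp
    have n1 := hno p hp q hq.2.2
    have n2 := hno q hq.2.2 p hp
    have n3 := hno p hp r hr.2.2
    have n4 := hno r hr.2.2 p hp
    have n5 := hno q hq.2.2 r hr.2.2
    have n6 := hno r hr.2.2 q hq.2.2
    have m1 := hq.2.1
    have m2 := hr.2.1
    constructor
    · intro h2
      by_cases hodd : q = 2 ∨ r = 2
      · have h5 : 5 ≤ p := by omega
        have h6 : (5 : ℝ) ≤ p := by exact_mod_cast h5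
        have := two_prod q r hq.1 hr.1 hqr 2 5 (by norm_num) (by norm_num) (by omega)
        norm_num at this
        linarith
      · have := two_prod q r hq.1 hr.1 hqr 3 5 (by norm_num) (by norm_num) (by omega)
        norm_num at this
        linarith [hp3 h2]
    · intro h2
      have h5q : 5 ≤ q := by omega
      have h5r : 5 ≤ r := by omega
      have q7 := cases7 q hq.1 h5q
      have r7 := cases7 r hr.1 h5r
      have := two_prod q r hq.1 hr.1 hqr 5 7 (by norm_num) (by norm_num) (by omega)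
      norm_num at this
      linarith

end BaseNum

open BaseNum

theorem base_star (s : Finset ℕ) (hs : ∀ p ∈ s, p.Prime)
    (h : s.card ≤ 2 ∨ (s.card = 3 ∧ ¬ ({2, 3} ⊆ s))) (p : ℕ) (hp : p ∈ s) (D : Finset ℕ)
    (hD : ∀ d ∈ D, d ≠ 0 ∧ d ≠ 2 ∧ p ∣ d ∧ d.primeFactors ⊆ s) :
    ∑ d ∈ D, (1 : ℝ) / (d : ℝ) < 1 := by
  classical
  have hpp := hs p hp
  have hp2 : (2 : ℝ) ≤ p := by exact_mod_cast hpp.two_le
  obtain ⟨hR1, hR2⟩ := rbound s hs h p hp
  set R := ∏ q ∈ s.erase p, (1 - (q : ℝ)⁻¹)⁻¹ with hR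
  -- the total
  have htot : (1 / (p : ℝ)) * ∏ q ∈ s, (1 - (q : ℝ)⁻¹)⁻¹ = R / ((p : ℝ) - 1) := by
    rw [← Finset.mul_prod_erase s _ hp, ← hR, fac_eq p hpp.two_le]
    have h1 : (p : ℝ) - 1 ≠ 0 := by
      intro h'
      linarith
    field_simp
    ring
  -- a power of `p` which is not in `D`
  set k := D.sup id + 2 with hk
  have hkD : p ^ k ∉ D := by
    intro hmem
    have h1 : p ^ k ≤ D.sup id := Finset.le_sup (f := id) hmem
    have h2 : k < p ^ k := Nat.lt_pow_self hpp.one_lt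
    omega
  have hk0 : p ^ k ≠ 0 := pow_ne_zero _ hpp.ne_zero
  have hkf : (p ^ k).primeFactors ⊆ s := by
    rw [Nat.primeFactors_prime_pow (by omega) hpp]
    exact Finset.singleton_subset_iff.2 hp
  have hkpos : (0 : ℝ) < 1 / ((p ^ k : ℕ) : ℝ) := by
    have : (0 : ℝ) < ((p ^ k : ℕ) : ℝ) := by exact_mod_cast Nat.pos_of_ne_zero hk0
    positivity
  have h1 : ∀ d ∈ insert (p ^ k) D, d ≠ 0 ∧ p ∣ d ∧ d.primeFactors ⊆ s := by
    intro d hd
    rcases Finset.mem_insert.1 hd with rfl | hd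
    · exact ⟨hk0, dvd_pow_self p (by omega), hkf⟩
    · exact ⟨(hD d hd).1, (hD d hd).2.2.1, (hD d hd).2.2.2⟩
  by_cases h2 : p = 2
  · have h3 : (2 : ℕ) ∉ insert (p ^ k) D := by
      intro hmem
      rcases Finset.mem_insert.1 hmem with h' | h'
      · have h4 : 2 ^ 2 ≤ p ^ k := by
          rw [h2]
          exact Nat.pow_le_pow_right (by norm_num) (by omega)
        omega
      · exact (hD 2 h').2.1 rfl
    have h4 := key s hs p hpp.ne_zero (insert 2 (insert (p ^ k) D)) (by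
      intro d hd
      rcases Finset.mem_insert.1 hd with rfl | hd
      · refine ⟨by norm_num, by rw [h2], ?_⟩
        rw [Nat.Prime.primeFactors Nat.prime_two]
        exact Finset.singleton_subset_iff.2 (h2 ▸ hp)
      · exact h1 d hd)
    rw [Finset.sum_insert h3, Finset.sum_insert hkD, htot] at h4
    have h5 := hR2 h2
    have h6 : (p : ℝ) = 2 := by exact_mod_cast h2
    rw [h6] at h4
    norm_num at h4
    have h7 : (0 : ℝ) < (((p : ℝ)) ^ k)⁻¹ := by positivity
    have h8 : (((p : ℝ)) ^ k)⁻¹ = ((2 : ℝ) ^ k)⁻¹ := by rw [h6]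
    simp only [one_div]
    linarith
  · have h4 := key s hs p hpp.ne_zero (insert (p ^ k) D) h1
    rw [Finset.sum_insert hkD, htot] at h4
    have h5 := hR1 h2
    have h6 : R / ((p : ℝ) - 1) ≤ 1 := (div_le_one (by linarith)).2 h5
    linarith

theorem base_two (s : Finset ℕ) (hs : ∀ p ∈ s, p.Prime)
    (h : s.card ≤ 2 ∨ (s.card = 3 ∧ ¬ ({2, 3} ⊆ s))) (D : Finset ℕ)
    (hD : ∀ d ∈ D, d ≠ 0 ∧ 2 ≤ d.primeFactors.card ∧ d.primeFactors ⊆ s) :
    ∑ d ∈ D, (1 : ℝ) / (d : ℝ) < 1 := by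
  classical
  -- the numbers divisible by two given primes
  have hpair : ∀ a b : ℕ, a ∈ s → b ∈ s → a ≠ b →
      ∑ d ∈ D.filter (fun d => a ∣ d ∧ b ∣ d), (1 : ℝ) / (d : ℝ) ≤
        (1 / ((a : ℝ) * b)) * ∏ p ∈ s, (1 - (p : ℝ)⁻¹)⁻¹ := by
    intro a b ha hb hab
    have h1 := key s hs (a * b) (mul_ne_zero (hs a ha).ne_zero (hs b hb).ne_zero)
      (D.filter (fun d => a ∣ d ∧ b ∣ d)) (by
        intro d hd
        obtain ⟨hd1, hd2, hd3⟩ := Finset.mem_filter.1 hd
        exact ⟨(hD d hd1).1, Nat.Coprime.mul_dvd_of_dvd_of_dvd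
          ((Nat.coprime_primes (hs a ha) (hs b hb)).2 hab) hd2 hd3, (hD d hd1).2.2⟩)
    rwa [Nat.cast_mul] at h1
  rcases lt_or_ge s.card 2 with h2 | h2
  · -- no such number
    have : D = ∅ := by
      rw [Finset.eq_empty_iff_forall_notMem]
      intro d hd
      have := (hD d hd).2.1.trans (Finset.card_le_card (hD d hd).2.2)
      omega
    rw [this, Finset.sum_empty]
    exact one_pos
  · rcases Nat.lt_or_ge 2 s.card with h3 | h3
    · -- three primes
      obtain ⟨h4, h23⟩ : s.card = 3 ∧ ¬ ({2, 3} ⊆ s) := by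
        rcases h with h | h
        · omega
        · exact h
      obtain ⟨a, b, c, hab, hac, hbc, rfl⟩ := Finset.card_eq_three.1 h4
      have ha : a ∈ ({a, b, c} : Finset ℕ) := by simp
      have hb : b ∈ ({a, b, c} : Finset ℕ) := by simp
      have hc : c ∈ ({a, b, c} : Finset ℕ) := by simp
      have hno : ∀ x ∈ ({a, b, c} : Finset ℕ), ∀ y ∈ ({a, b, c} : Finset ℕ),
          ¬ (x = 2 ∧ y = 3) := by
        rintro x hx y hy ⟨rfl, rfl⟩
        apply h23
        intro z hz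
        rcases Finset.mem_insert.1 hz with h | h
        · rw [h]
          exact hx
        · rw [Finset.mem_singleton.1 h]
          exact hy
      have hsub : D ⊆ (D.filter (fun d => a ∣ d ∧ b ∣ d) ∪ D.filter (fun d => a ∣ d ∧ c ∣ d)) ∪
          D.filter (fun d => b ∣ d ∧ c ∣ d) := by
        intro d hd
        obtain ⟨x, hx, y, hy, hxy⟩ := Finset.one_lt_card.1 (lt_of_lt_of_le one_lt_two (hD d hd).2.1)
        have hx1 := (hD d hd).2.2 hx
        have hy1 := (hD d hd).2.2 hy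
        have hx2 := Nat.dvd_of_mem_primeFactors hx
        have hy2 := Nat.dvd_of_mem_primeFactors hy
        simp only [Finset.mem_insert, Finset.mem_singleton] at hx1 hy1
        simp only [Finset.mem_union, Finset.mem_filter]
        rcases hx1 with rfl | rfl | rfl <;> rcases hy1 with rfl | rfl | rfl <;>
          first
          | exact absurd rfl hxy
          | tauto
      have hle : ∑ d ∈ D, (1 : ℝ) / (d : ℝ) ≤
          (∑ d ∈ D.filter (fun d => a ∣ d ∧ b ∣ d), (1 : ℝ) / (d : ℝ) +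
            ∑ d ∈ D.filter (fun d => a ∣ d ∧ c ∣ d), (1 : ℝ) / (d : ℝ)) +
            ∑ d ∈ D.filter (fun d => b ∣ d ∧ c ∣ d), (1 : ℝ) / (d : ℝ) := by
        have hu : ∀ A B : Finset ℕ, ∑ d ∈ A ∪ B, (1 : ℝ) / (d : ℝ) ≤
            ∑ d ∈ A, (1 : ℝ) / (d : ℝ) + ∑ d ∈ B, (1 : ℝ) / (d : ℝ) := by
          intro A B
          rw [← Finset.sum_union_inter]
          have : 0 ≤ ∑ d ∈ A ∩ B, (1 : ℝ) / (d : ℝ) := Finset.sum_nonneg fun d _ => by positivity
          linarith
        refine (Finset.sum_le_sum_of_subset_of_nonneg hsub fun d _ _ => by positivity).trans ?_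
        exact (hu _ _).trans (add_le_add_left (hu _ _) _)
      have e1 := hpair a b ha hb hab
      have e2 := hpair a c ha hc hac
      have e3 := hpair b c hb hc hbc
      have pa := hs a ha
      have pb := hs b hb
      have pc := hs c hc
      have ga : (2 : ℝ) ≤ a := by exact_mod_cast pa.two_le
      have gb : (2 : ℝ) ≤ b := by exact_mod_cast pb.two_le
      have gc : (2 : ℝ) ≤ c := by exact_mod_cast pc.two_le
      have hP : ∏ p ∈ ({a, b, c} : Finset ℕ), (1 - (p : ℝ)⁻¹)⁻¹ =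
          ((a : ℝ) / (a - 1)) * (((b : ℝ) / (b - 1)) * ((c : ℝ) / (c - 1))) := by
        rw [Finset.prod_insert (by simp [hab, hac]), Finset.prod_pair hbc, fac_eq a pa.two_le,
          fac_eq b pb.two_le, fac_eq c pc.two_le]
        have za : (a : ℝ) - 1 ≠ 0 := by intro h'; linarith
        have zb : (b : ℝ) - 1 ≠ 0 := by intro h'; linarith
        have zc : (c : ℝ) - 1 ≠ 0 := by intro h'; linarith
        field_simp
        ring
      rw [hP] at e1 e2 e3
      have hnum : (a : ℝ) + b + c < ((a : ℝ) - 1) * (((b : ℝ) - 1) * ((c : ℝ) - 1)) := by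
        have q1 := cases5 a pa
        have q2 := cases5 b pb
        have q3 := cases5 c pc
        have n1 := hno a ha b hb
        have n2 := hno b hb a ha
        have n3 := hno a ha c hc
        have n4 := hno c hc a ha
        have n5 := hno b hb c hc
        have n6 := hno c hc b hb
        have hcase : (5 ≤ b ∧ 5 ≤ c) ∨ (5 ≤ a ∧ 5 ≤ c) ∨ (5 ≤ a ∧ 5 ≤ b) := by omega
        have aux : ∀ x y z : ℝ, 2 ≤ x → 5 ≤ y → 5 ≤ z → x + y + z < (x - 1) * ((y - 1) * (z - 1)) := by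
          intro x y z hx hy hz
          have h1 : (0 : ℝ) ≤ (y - 5) * (z - 5) := mul_nonneg (by linarith) (by linarith)
          have h2 : y + z + 2 < (y - 1) * (z - 1) := by nlinarith
          have h3 : (0 : ℝ) ≤ (x - 2) * ((y - 1) * (z - 1) - 1) := by
            apply mul_nonneg (by linarith)
            linarith
          nlinarith
        rcases hcase with ⟨h1, h2⟩ | ⟨h1, h2⟩ | ⟨h1, h2⟩
        · have := aux a b c ga (by exact_mod_cast h1) (by exact_mod_cast h2)
          linarith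
        · have := aux b a c gb (by exact_mod_cast h1) (by exact_mod_cast h2)
          nlinarith
        · have := aux c a b gc (by exact_mod_cast h1) (by exact_mod_cast h2)
          nlinarith
      have za : (0 : ℝ) < (a : ℝ) - 1 := by linarith
      have zb : (0 : ℝ) < (b : ℝ) - 1 := by linarith
      have zc : (0 : ℝ) < (c : ℝ) - 1 := by linarith
      have hfin : 1 / ((a : ℝ) * b) * ((a : ℝ) / (a - 1) * ((b : ℝ) / (b - 1) * ((c : ℝ) / (c - 1)))) +
          1 / ((a : ℝ) * c) * ((a : ℝ) / (a - 1) * ((b : ℝ) / (b - 1) * ((c : ℝ) / (c - 1)))) +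
          1 / ((b : ℝ) * c) * ((a : ℝ) / (a - 1) * ((b : ℝ) / (b - 1) * ((c : ℝ) / (c - 1)))) =
          ((a : ℝ) + b + c) / (((a : ℝ) - 1) * (((b : ℝ) - 1) * ((c : ℝ) - 1))) := by
        have ya : (a : ℝ) ≠ 0 := by linarith
        have yb : (b : ℝ) ≠ 0 := by linarith
        have yc : (c : ℝ) ≠ 0 := by linarith
        field_simp
        ring
      have hlt : ((a : ℝ) + b + c) / (((a : ℝ) - 1) * (((b : ℝ) - 1) * ((c : ℝ) - 1))) < 1 :=
        (div_lt_one (by positivity)).2 hnum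
      linarith
    · -- two primes
      have h4 : s.card = 2 := by omega
      obtain ⟨a, b, hab, rfl⟩ := Finset.card_eq_two.1 h4
      have ha : a ∈ ({a, b} : Finset ℕ) := by simp
      have hb : b ∈ ({a, b} : Finset ℕ) := by simp
      have hsub : D.filter (fun d => a ∣ d ∧ b ∣ d) = D := by
        refine Finset.filter_true_of_mem fun d hd => ?_
        have h5 : d.primeFactors = {a, b} :=
          Finset.eq_of_subset_of_card_le (hD d hd).2.2 (h4.le.trans (hD d hd).2.1)
        exact ⟨Nat.dvd_of_mem_primeFactors (h5 ▸ ha), Nat.dvd_of_mem_primeFactors (h5 ▸ hb)⟩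
      have e1 := hpair a b ha hb hab
      rw [hsub, Finset.prod_pair hab] at e1
      have pa := hs a ha
      have pb := hs b hb
      have ga : (2 : ℝ) ≤ a := by exact_mod_cast pa.two_le
      have gb : (2 : ℝ) ≤ b := by exact_mod_cast pb.two_le
      rw [fac_eq a pa.two_le, fac_eq b pb.two_le] at e1
      have za : (0 : ℝ) < (a : ℝ) - 1 := by linarith
      have zb : (0 : ℝ) < (b : ℝ) - 1 := by linarith
      have hfin : 1 / ((a : ℝ) * b) * ((1 + 1 / ((a : ℝ) - 1)) * (1 + 1 / ((b : ℝ) - 1))) =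
          1 / (((a : ℝ) - 1) * ((b : ℝ) - 1)) := by
        have ya : (a : ℝ) ≠ 0 := by linarith
        have yb : (b : ℝ) ≠ 0 := by linarith
        field_simp
        ring
      rw [hfin] at e1
      have hgt : 1 < ((a : ℝ) - 1) * ((b : ℝ) - 1) := by
        have := pa.two_le
        have := pb.two_le
        have hcase : 3 ≤ a ∨ 3 ≤ b := by omega
        rcases hcase with h1 | h1
        · have : (3 : ℝ) ≤ a := by exact_mod_cast h1
          nlinarith
        · have : (3 : ℝ) ≤ b := by exact_mod_cast h1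
          nlinarith
      exact e1.trans_lt ((div_lt_one (by positivity)).2 hgt)

end Pool.Agent.HL
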