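import Pool.Agent.HL.Defs

/-!
Project HL (MP_961d7e_lc), row HL-11: two cosets with coprime indices meet; the sum of the inverse
indices of a partition into cosets.
-/

set_option autoImplicit false

namespace Pool.Agent.HL

theorem meet_of_coprime {G : Type} [Group G] [Finite G] (H K : Subgroup G)
    (h : H.index.Coprime K.index) (a b : G) : ∃ g, a⁻¹ * g ∈ H ∧ b⁻¹ * g ∈ K := by
  classical
  let f : G ⧸ (H ⊓ K) → (G ⧸ H) × (G ⧸ K) := fun q =>
    (Subgroup.quotientMapOfLE inf_le_left q, Subgroup.quotientMapOfLE inf_le_right q)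
  have hf : ∀ g : G, f (QuotientGroup.mk g) = (QuotientGroup.mk g, QuotientGroup.mk g) :=
    fun g => rfl
  have hinj : Function.Injective f := by
    intro p q
    induction p using QuotientGroup.induction_on with
    | H g =>
      induction q using QuotientGroup.induction_on with
      | H k =>
        intro e
        rw [hf, hf, Prod.mk.injEq, QuotientGroup.eq, QuotientGroup.eq] at e
        rw [QuotientGroup.eq]
        exact ⟨e.1, e.2⟩
  have hcard : Nat.card ((G ⧸ H) × (G ⧸ K)) ≤ Nat.card (G ⧸ (H ⊓ K)) := by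
    rw [Nat.card_prod]
    change H.index * K.index ≤ (H ⊓ K).index
    refine Nat.le_of_dvd (Nat.pos_of_ne_zero (Subgroup.index_ne_zero_of_finite)) ?_
    exact h.mul_dvd_of_dvd_of_dvd (Subgroup.index_dvd_of_le inf_le_left)
      (Subgroup.index_dvd_of_le inf_le_right)
  have hbij := hinj.bijective_of_nat_card_le hcard
  obtain ⟨q, hq⟩ := hbij.2 (QuotientGroup.mk a, QuotientGroup.mk b)
  induction q using QuotientGroup.induction_on with
  | H g =>
    rw [hf, Prod.mk.injEq] at hq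
    exact ⟨g, QuotientGroup.eq.1 hq.1.symm, QuotientGroup.eq.1 hq.2.symm⟩

theorem meet_of_coprime_rel {G : Type} [Group G] [Finite G] (R H K : Subgroup G)
    (h : (H.relIndex R).Coprime (K.relIndex R)) (a b x : G)
    (ha : ∃ ρ ∈ R, a⁻¹ * (x * ρ) ∈ H) (hb : ∃ ρ ∈ R, b⁻¹ * (x * ρ) ∈ K) :
    ∃ ρ ∈ R, a⁻¹ * (x * ρ) ∈ H ∧ b⁻¹ * (x * ρ) ∈ K := by
  obtain ⟨r, hr, h1⟩ := ha
  obtain ⟨t, ht, h2⟩ := hb
  obtain ⟨g, hg1, hg2⟩ := meet_of_coprime (H.subgroupOf R) (K.subgroupOf R) h ⟨r, hr⟩ ⟨t, ht⟩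
  rw [Subgroup.mem_subgroupOf] at hg1 hg2
  refine ⟨g, g.2, ?_, ?_⟩
  · have e : a⁻¹ * (x * (g : G)) = a⁻¹ * (x * r) * (r⁻¹ * g) := by group
    rw [e]
    exact H.mul_mem h1 hg1
  · have e : b⁻¹ * (x * (g : G)) = b⁻¹ * (x * t) * (t⁻¹ * g) := by group
    rw [e]
    exact K.mul_mem h2 hg2

theorem sum_inv_index {G : Type} [Group G] [Finite G] {ι : Type} [Fintype ι]
    (H : ι → Subgroup G) (a : ι → G) (hp : ∀ g, ∃! i, (a i)⁻¹ * g ∈ H i) :
    ∑ i, (1 : ℝ) / ((H i).index : ℝ) = 1 := by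
  classical
  let e : (Σ i, H i) ≃ G :=
    Equiv.ofBijective (fun p => a p.1 * (p.2 : G)) (by
      constructor
      · rintro ⟨i, u⟩ ⟨j, v⟩ huv
        change a i * (u : G) = a j * (v : G) at huv
        have h1 : (a i)⁻¹ * (a i * (u : G)) ∈ H i := by
          rw [inv_mul_cancel_left]
          exact u.2
        have h2 : (a j)⁻¹ * (a i * (u : G)) ∈ H j := by
          rw [huv, inv_mul_cancel_left]
          exact v.2
        obtain rfl : i = j := (hp (a i * (u : G))).unique h1 h2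
        have h3 : (u : G) = v := mul_left_cancel huv
        rw [Subtype.ext h3]
      · intro g
        obtain ⟨i, hi, -⟩ := hp g
        exact ⟨⟨i, ⟨(a i)⁻¹ * g, hi⟩⟩, by simp⟩)
  have hcard : Nat.card G = ∑ i, Nat.card (H i) := by
    rw [← Nat.card_congr e, Nat.card_sigma]
  have hG : (Nat.card G : ℝ) ≠ 0 := by
    exact_mod_cast Nat.card_pos.ne'
  have hi : ∀ i, (1 : ℝ) / ((H i).index : ℝ) = (Nat.card (H i) : ℝ) / Nat.card G := by
    intro i
    have h1 : Nat.card (H i) * (H i).index = Nat.card G := (H i).card_mul_index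
    have h2 : ((H i).index : ℝ) ≠ 0 := by
      exact_mod_cast Subgroup.index_ne_zero_of_finite
    rw [div_eq_div_iff h2 hG, one_mul]
    exact_mod_cast h1.symm
  simp only [hi]
  rw [← Finset.sum_div, ← Nat.cast_sum, ← hcard, div_self hG]

end Pool.Agent.HL
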