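import Pool.Agent.HL.Defs

/-!
# Project HL: a coset of index two (row HL-14)
-/

set_option autoImplicit false

namespace Pool.Agent.HL

theorem hs_two {G : Type} [Group G] [Finite G] {ι : Type} [Fintype ι] (H : ι → Subgroup G)
    (a : ι → G) (hH : ∀ i, H i ≠ ⊤) (hp : ∀ g, ∃! i, (a i)⁻¹ * g ∈ H i) (i0 : ι)
    (h2 : (H i0).index = 2) (h : HS (H i0)) : ∃ i j, i ≠ j ∧ (H i).index = (H j).index := by
  classical
  have hu : ∀ g i j, (a i)⁻¹ * g ∈ H i → (a j)⁻¹ * g ∈ H j → i = j := by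
    intro g i j hi hj
    obtain ⟨k, -, hk⟩ := hp g
    exact (hk i hi).trans (hk j hj).symm
  have hmul : ∀ x y : G, x * y ∈ H i0 ↔ (x ∈ H i0 ↔ y ∈ H i0) := fun x y =>
    Subgroup.mul_mem_iff_of_index_two h2
  obtain ⟨b, hb⟩ : ∃ b, b ∉ H i0 := by
    by_contra hcon
    push Not at hcon
    exact hH i0 (Subgroup.eq_top_iff' _ |>.2 hcon)
  -- the base point of the other coset
  set c : G := a i0 * b with hc
  have hc1 : (a i0)⁻¹ * c ∉ H i0 := by
    rw [hc, inv_mul_cancel_left]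
    exact hb
  have hoth : ∀ y, (a i0)⁻¹ * y ∉ H i0 → c⁻¹ * y ∈ H i0 := by
    intro y hy
    have h1 : c⁻¹ * y = ((a i0)⁻¹ * c)⁻¹ * ((a i0)⁻¹ * y) := by group
    rw [h1, hmul, inv_mem_iff]
    exact iff_of_false hc1 hy
  have haj : ∀ j, j ≠ i0 → ∀ x ∈ H j, (a i0)⁻¹ * (a j * x) ∉ H i0 := by
    intro j hj x hx h1
    exact hj (hu (a j * x) j i0 (by rw [inv_mul_cancel_left]; exact hx) h1)
  have haj1 : ∀ j, j ≠ i0 → (a i0)⁻¹ * a j ∉ H i0 := by
    intro j hj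
    have h1 := haj j hj 1 (one_mem _)
    rwa [mul_one] at h1
  have hle : ∀ j, j ≠ i0 → H j ≤ H i0 := by
    intro j hj x hx
    have h1 := haj j hj x hx
    rw [← mul_assoc, hmul] at h1
    by_contra h3
    exact h1 (iff_of_false (haj1 j hj) h3)
  have hidx : ∀ j, j ≠ i0 → (H j).index = (H j).relIndex (H i0) * 2 := by
    intro j hj
    rw [← h2]
    exact (Subgroup.relIndex_mul_index (hle j hj)).symm
  by_cases htop : ∃ j, j ≠ i0 ∧ (H j).subgroupOf (H i0) = ⊤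
  · obtain ⟨j, hj, ht⟩ := htop
    refine ⟨j, i0, hj, ?_⟩
    rw [le_antisymm (hle j hj) (Subgroup.subgroupOf_eq_top.1 ht)]
  · push Not at htop
    obtain ⟨i, j, hij, h3⟩ := h {j // j ≠ i0} (fun j => (H j.1).subgroupOf (H i0))
      (fun j => ⟨c⁻¹ * a j.1, hoth _ (haj1 j.1 j.2)⟩) (fun j => htop j.1 j.2) (by
        intro g
        have key : ∀ j : {j // j ≠ i0},
            ((⟨c⁻¹ * a j.1, hoth _ (haj1 j.1 j.2)⟩ : H i0)⁻¹ * g ∈ (H j.1).subgroupOf (H i0)) ↔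
              (a j.1)⁻¹ * (c * g) ∈ H j.1 := by
          intro j
          rw [Subgroup.mem_subgroupOf]
          have h4 : ((((⟨c⁻¹ * a j.1, hoth _ (haj1 j.1 j.2)⟩ : H i0)⁻¹ * g : H i0)) : G) =
              (a j.1)⁻¹ * (c * g) := by
            rw [Subgroup.coe_mul, Subgroup.coe_inv]
            group
          rw [h4]
        obtain ⟨k, hk, -⟩ := hp (c * g)
        have hk0 : k ≠ i0 := by
          rintro rfl
          rw [← mul_assoc, hmul] at hk
          exact hc1 (hk.2 g.2)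
        refine ⟨⟨k, hk0⟩, (key ⟨k, hk0⟩).2 hk, ?_⟩
        intro j hj
        exact Subtype.ext (hu _ _ _ ((key j).1 hj) hk))
    refine ⟨i.1, j.1, fun h4 => hij (Subtype.ext h4), ?_⟩
    rw [hidx i.1 i.2, hidx j.1 j.2]
    have h5 : (H i.1).relIndex (H i0) = (H j.1).relIndex (H i0) := h3
    rw [h5]

end Pool.Agent.HL
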