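import Pool.Agent.HL.Defs
import Pool.Agent.HL.Copr
import Pool.Agent.HL.Idx
import Pool.Agent.HL.BaseNum

/-!
# Project HL: the base case (row HL-16)
-/

set_option autoImplicit false

namespace Pool.Agent.HL


theorem hs_base (s : Finset ℕ) (hs : ∀ p ∈ s, p.Prime)
    (h : s.card ≤ 2 ∨ (s.card = 3 ∧ ¬ ({2, 3} ⊆ s))) : HSfor s := by
  classical
  -- strong induction on the order
  have key : ∀ n : ℕ, ∀ (G : Type) [Group G] [Finite G], Nat.card G = n →
      (Nat.card G).primeFactors ⊆ s → HS G := by
    intro n
    induction n using Nat.strong_induction_on with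
    | _ n ih =>
      intro G _ _ hcard hsub ι _ H a hH hp
      by_contra hcon
      push Not at hcon
      have hne : Nat.card G ≠ 0 := Nat.card_pos.ne'
      have hidx : ∀ i, (H i).index ≠ 0 := fun i => Subgroup.index_ne_zero_of_finite
      have hidx1 : ∀ i, (H i).index ≠ 1 := fun i h1 => hH i (Subgroup.index_eq_one.1 h1)
      have hdvd : ∀ i, (H i).index ∣ Nat.card G := fun i => Subgroup.index_dvd_card (H i)
      have hpf : ∀ i, (H i).index.primeFactors ⊆ s := fun i =>
        (Nat.primeFactors_mono (hdvd i) hne).trans hsub
      -- index two
      have hidx2 : ∀ i, (H i).index ≠ 2 := by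
        intro i0 h2
        have hlt : Nat.card (H i0) < n := by
          have h3 := Subgroup.card_mul_index (H i0)
          rw [h2, hcard] at h3
          have h4 : 0 < Nat.card (H i0) := Nat.card_pos
          omega
        have hHS : HS (H i0) := by
          refine ih _ hlt (H i0) rfl ?_
          exact (Nat.primeFactors_mono (Subgroup.card_subgroup_dvd_card (H i0)) hne).trans hsub
        obtain ⟨i, j, hij, h5⟩ := hs_two H a hH hp i0 h2 hHS
        exact hcon i j hij h5
      -- not coprime
      have hcop : ∀ i j, i ≠ j → ¬ (H i).index.Coprime (H j).index := by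
        intro i j hij hc
        obtain ⟨g, hg1, hg2⟩ := meet_of_coprime (H i) (H j) hc (a i) (a j)
        obtain ⟨k, -, hk⟩ := hp g
        exact hij ((hk i hg1).trans (hk j hg2).symm)
      have hinj : Function.Injective fun i => (H i).index := by
        intro i j hij
        by_contra hne'
        exact hcon i j hne' hij
      have hsum : ∑ d ∈ Finset.univ.image (fun i => (H i).index), (1 : ℝ) / (d : ℝ) = 1 := by
        rw [Finset.sum_image (fun x _ y _ hxy => hinj hxy)]
        exact sum_inv_index H a hp
      by_cases hpp : ∃ i, (H i).index.primeFactors.card < 2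
      · obtain ⟨i, hi⟩ := hpp
        have hi1 : (H i).index.primeFactors.Nonempty := Nat.nonempty_primeFactors.2 (by
          have := hidx i
          have := hidx1 i
          omega)
        obtain ⟨p, hpi⟩ := hi1
        have hpi' : (H i).index.primeFactors = {p} := by
          refine (Finset.eq_of_subset_of_card_le (Finset.singleton_subset_iff.2 hpi) ?_).symm
          rw [Finset.card_singleton]
          omega
        have hps : p ∈ s := hpf i hpi
        have hall : ∀ j, p ∣ (H j).index := by
          intro j
          by_cases hij : j = i
          · rw [hij]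
            exact Nat.dvd_of_mem_primeFactors hpi
          · have h6 := hcop i j (Ne.symm hij)
            rw [Nat.Prime.not_coprime_iff_dvd] at h6
            obtain ⟨q, hq, hq1, hq2⟩ := h6
            have h7 : q ∈ (H i).index.primeFactors :=
              Nat.mem_primeFactors.2 ⟨hq, hq1, hidx i⟩
            rw [hpi', Finset.mem_singleton] at h7
            rw [← h7]
            exact hq2
        have h8 := base_star s hs h p hps (Finset.univ.image fun i => (H i).index) (by
          intro d hd
          obtain ⟨j, -, rfl⟩ := Finset.mem_image.1 hd
          exact ⟨hidx j, hidx2 j, hall j, hpf j⟩)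
        rw [hsum] at h8
        exact lt_irrefl _ h8
      · push Not at hpp
        have h8 := base_two s hs h (Finset.univ.image fun i => (H i).index) (by
          intro d hd
          obtain ⟨j, -, rfl⟩ := Finset.mem_image.1 hd
          exact ⟨hidx j, hpp j, hpf j⟩)
        rw [hsum] at h8
        exact lt_irrefl _ h8
  intro G _ _ hG
  exact key _ G rfl hG

end Pool.Agent.HL
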