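import Pool.Agent.HL.Defs

/-!
# HL-5: the sum of the inverses of the divisors
-/

set_option autoImplicit false

namespace Pool.Agent.HL

private theorem BB_eq (t : ℕ) (ht : t ≠ 0) :
    BB t = ((∑ d ∈ t.divisors, d : ℕ) : ℝ) / (t : ℝ) := by
  have h := Nat.sum_div_divisors t (fun d => (d : ℝ) / (t : ℝ))
  have ht' : (t : ℝ) ≠ 0 := by exact_mod_cast ht
  unfold BB
  rw [Nat.cast_sum, Finset.sum_div, ← h]
  refine Finset.sum_congr rfl fun d hd => ?_
  have hdt := Nat.dvd_of_mem_divisors hd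
  have hd0 : (d : ℝ) ≠ 0 := by
    have := Nat.pos_of_mem_divisors hd
    positivity
  rw [Nat.cast_div hdt hd0]
  field_simp

private theorem factor_le (p v : ℕ) (hp : p.Prime) :
    ((∑ k ∈ Finset.range (v + 1), p ^ k : ℕ) : ℝ) / ((p ^ v : ℕ) : ℝ) ≤
      1 + 1 / ((p : ℝ) - 1) := by
  have h1 : (1 : ℝ) < p := by exact_mod_cast hp.one_lt
  have h2 : (0 : ℝ) < (p : ℝ) ^ v := by positivity
  have h3 : (0 : ℝ) < (p : ℝ) - 1 := by linarith
  have h4 := geom_sum_mul (p : ℝ) (v + 1)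
  push_cast
  rw [div_le_iff₀ h2]
  have h5 : (∑ k ∈ Finset.range (v + 1), (p : ℝ) ^ k) = ((p : ℝ) ^ (v + 1) - 1) / ((p : ℝ) - 1) := by
    rw [eq_div_iff h3.ne', h4]
  rw [h5, div_le_iff₀ h3, pow_succ]
  have h6 : (1 + 1 / ((p : ℝ) - 1)) * (p : ℝ) ^ v * ((p : ℝ) - 1) = (p : ℝ) ^ v * p := by
    field_simp
    ring
  rw [h6]
  linarith

private theorem one_le_factor (p : ℕ) (hp : p.Prime) : (1 : ℝ) ≤ 1 + 1 / ((p : ℝ) - 1) := by
  have h1 : (1 : ℝ) < p := by exact_mod_cast hp.one_lt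
  have h3 : (0 : ℝ) < (p : ℝ) - 1 := by linarith
  have : (0 : ℝ) ≤ 1 / ((p : ℝ) - 1) := by positivity
  linarith

theorem BB_le (t : ℕ) (ht : t ≠ 0) (σ : Finset ℕ) (hσ : ∀ p ∈ σ, p.Prime)
    (h : t.primeFactors ⊆ σ) : BB t ≤ ∏ q ∈ σ, (1 + 1 / ((q : ℝ) - 1)) := by
  have h1 : BB t ≤ ∏ q ∈ t.primeFactors, (1 + 1 / ((q : ℝ) - 1)) := by
    have hs : (t : ℝ) = ∏ p ∈ t.primeFactors, ((p ^ t.factorization p : ℕ) : ℝ) := by
      have := Nat.prod_factorization_pow_eq_self ht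
      conv_lhs => rw [← this]
      unfold Finsupp.prod
      rw [Nat.support_factorization, Nat.cast_prod]
    rw [BB_eq t ht, Nat.sum_divisors ht, Nat.cast_prod, hs, ← Finset.prod_div_distrib]
    refine Finset.prod_le_prod (fun p _ => by positivity) fun p hp => ?_
    exact factor_le p _ (Nat.prime_of_mem_primeFactors hp)
  refine h1.trans ?_
  rw [← Finset.prod_sdiff h]
  have h2 : (1 : ℝ) ≤ ∏ q ∈ σ \ t.primeFactors, (1 + 1 / ((q : ℝ) - 1)) :=
    Finset.prod_induction _ (fun x : ℝ => 1 ≤ x) (fun a b ha hb => one_le_mul_of_one_le_of_one_le ha hb)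
      le_rfl fun q hq => one_le_factor q (hσ q (Finset.mem_sdiff.1 hq).1)
  have h3 : (0 : ℝ) ≤ ∏ q ∈ t.primeFactors, (1 + 1 / ((q : ℝ) - 1)) :=
    Finset.prod_nonneg fun q hq => by
      have := one_le_factor q (Nat.prime_of_mem_primeFactors hq)
      linarith
  nlinarith

theorem prod_le_exp (σ : Finset ℕ) (hσ : ∀ p ∈ σ, p.Prime) :
    ∏ q ∈ σ, (1 + 1 / ((q : ℝ) - 1)) ≤ Real.exp (∑ q ∈ σ, 1 / ((q : ℝ) - 1)) := by
  rw [Real.exp_sum]
  refine Finset.prod_le_prod (fun q hq => ?_) fun q _ => ?_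
  · have := one_le_factor q (hσ q hq)
    linarith
  · have := Real.add_one_le_exp (1 / ((q : ℝ) - 1))
    linarith

end Pool.Agent.HL
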