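import Mathlib

/-!
# Project HL (MP_961d7e_lc): the Herzog-Schoenheim statement and layered sets of primes. Definitions.
-/

set_option autoImplicit false

namespace Pool.Agent.HL

/-- The Herzog-Schoenheim statement for the group `G`: in any partition of `G` into finitely many
left cosets `a i * H i` of proper subgroups two of the subgroups have the same index. -/
def HS (G : Type) [Group G] : Prop :=
  ∀ (ι : Type) [Fintype ι] (H : ι → Subgroup G) (a : ι → G), (∀ i, H i ≠ ⊤) →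
    (∀ g, ∃! i, (a i)⁻¹ * g ∈ H i) → ∃ i j, i ≠ j ∧ (H i).index = (H j).index

/-- The Herzog-Schoenheim statement for all finite groups whose order has all its prime divisors
in `s`. -/
def HSfor (s : Finset ℕ) : Prop :=
  ∀ (G : Type) [Group G] [Finite G], (Nat.card G).primeFactors ⊆ s → HS G

/-- The product of `(√p + 1) / (√p - 1)` over `p` in `s`. -/
noncomputable def KK (s : Finset ℕ) : ℝ := ∏ p ∈ s, ((√(p : ℝ) + 1) / (√(p : ℝ) - 1))

open Classical in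
/-- The bound in the definition of layered sets. -/
noncomputable def eps (s : Finset ℕ) : ℝ := if s ⊆ {2, 3} then 1 / 10 else 1 / (4 * KK s ^ 2)

/-- Layered finite sets (of primes). -/
inductive Layered : Finset ℕ → Prop
  | base (s : Finset ℕ) (h : s.card ≤ 2 ∨ (s.card = 3 ∧ ¬ ({2, 3} ⊆ s))) : Layered s
  | step (s t : Finset ℕ) (hs : Layered s) (hst : s ⊆ t)
      (h : ∑ q ∈ t \ s, (1 : ℝ) / ((q : ℝ) - 1) ≤ eps s) : Layered t

/-- The sum of `gcd (q, a) / a` over the divisors `a ≥ Y q` of `m`. -/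
noncomputable def AA (m q Y : ℕ) : ℝ :=
  ∑ a ∈ m.divisors with Y * q ≤ a, ((Nat.gcd q a : ℕ) : ℝ) / (a : ℝ)

/-- The sum of the inverses of the divisors of `t`. -/
noncomputable def BB (t : ℕ) : ℝ := ∑ b ∈ t.divisors, (1 : ℝ) / (b : ℝ)

/-- The ratio `2 ^ e 3 ^ f`. -/
noncomputable def rz (x : ℤ × ℤ) : ℝ := (2 : ℝ) ^ x.1 * (3 : ℝ) ^ x.2

/-- The weight of a ratio. -/
noncomputable def wz (x : ℤ × ℤ) : ℝ := ((2 : ℝ) ^ (max x.1 0) * (3 : ℝ) ^ (max x.2 0))⁻¹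

/-- The data which a counterexample gives rise to. -/
structure Wt (ι : Type) (s t : Finset ℕ) (n : ℕ) where
  U : Finset ι
  q : ι → ℕ
  r : ι → ℕ
  w : ι → ℝ
  E : ι → Prop
  i0 : ι
  hi0 : i0 ∈ U
  hmin : ∀ i ∈ U, q i0 ≤ q i
  hinj : ∀ i ∈ U, ∀ j ∈ U, q i * r i = q j * r j → i = j
  hq : ∀ i ∈ U, (q i).primeFactors ⊆ s
  hd : ∀ i ∈ U, q i * r i ∣ n
  hr : ∀ i ∈ U, ∃ p ∈ t \ s, p ≤ r i
  hw : ∀ i ∈ U, w i ≤ ((Nat.gcd (q i0) (q i) : ℕ) : ℝ) / ((q i : ℝ) * (r i : ℝ))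
  hE : ∀ i ∈ U, q i = q i0 → E i ∨ w i ≤ 1 / (2 * (r i : ℝ))
  hc : ∀ i ∈ U, E i → ∀ j ∈ U, j ≠ i → w j = 0 ∨ ¬ (r i).Coprime (r j)

end Pool.Agent.HL
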