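import Pool.Agent.HL.Defs

/-!
# HL-3: exponents of numbers with prime divisors 2 and 3
-/

set_option autoImplicit false

namespace Pool.Agent.HL

/-- The exponents of `a / q`. -/
noncomputable def xz (q a : ℕ) : ℤ × ℤ :=
  ((a.factorization 2 : ℤ) - (q.factorization 2 : ℤ), (a.factorization 3 : ℤ) - (q.factorization 3 : ℤ))

private theorem ex_nat (a : ℕ) (ha : a ≠ 0) (ha' : a.primeFactors ⊆ {2, 3}) :
    2 ^ a.factorization 2 * 3 ^ a.factorization 3 = a := by
  have h1 : a.factorization.prod (fun p k => p ^ k) = a := Nat.prod_factorization_pow_eq_self ha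
  rw [Finsupp.prod_of_support_subset a.factorization (s := {2, 3})
    (by rw [Nat.support_factorization]; exact ha') _ (fun i _ => pow_zero i)] at h1
  rw [Finset.prod_pair (by norm_num)] at h1
  exact h1

private theorem ex_real (a : ℕ) (ha : a ≠ 0) (ha' : a.primeFactors ⊆ {2, 3}) :
    (2 : ℝ) ^ a.factorization 2 * 3 ^ a.factorization 3 = (a : ℝ) := by
  have h := ex_nat a ha ha'
  exact_mod_cast congrArg (fun n : ℕ => (n : ℝ)) h

theorem rz_xz (q a : ℕ) (hq : q ≠ 0) (ha : a ≠ 0) (hq' : q.primeFactors ⊆ {2, 3})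
    (ha' : a.primeFactors ⊆ {2, 3}) : rz (xz q a) = (a : ℝ) / (q : ℝ) := by
  unfold rz xz
  simp only
  rw [zpow_sub₀ (by norm_num), zpow_sub₀ (by norm_num), zpow_natCast, zpow_natCast, zpow_natCast,
    zpow_natCast, div_mul_div_comm, ex_real a ha ha', ex_real q hq hq']

private theorem ex_max (b : ℝ) (hb : b ≠ 0) (x y : ℕ) :
    b ^ (max ((y : ℤ) - (x : ℤ)) 0) * b ^ (min x y) = b ^ y := by
  rw [← zpow_natCast b (min x y), ← zpow_natCast b y, ← zpow_add₀ hb]
  congr 1
  rcases le_total x y with h | h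
  · rw [max_eq_left (by omega), min_eq_left h]; ring
  · rw [max_eq_right (by omega), min_eq_right h]; ring

theorem wz_xz (q a : ℕ) (hq : q ≠ 0) (ha : a ≠ 0) (hq' : q.primeFactors ⊆ {2, 3})
    (ha' : a.primeFactors ⊆ {2, 3}) : wz (xz q a) = ((Nat.gcd q a : ℕ) : ℝ) / (a : ℝ) := by
  have hg : Nat.gcd q a ≠ 0 := Nat.gcd_ne_zero_left hq
  have hg' : (Nat.gcd q a).primeFactors ⊆ {2, 3} :=
    (Nat.primeFactors_mono (Nat.gcd_dvd_right q a) ha).trans ha'
  have e := ex_real _ hg hg'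
  have f2 : (Nat.gcd q a).factorization 2 = min (q.factorization 2) (a.factorization 2) := by
    rw [Nat.factorization_gcd hq ha]; rfl
  have f3 : (Nat.gcd q a).factorization 3 = min (q.factorization 3) (a.factorization 3) := by
    rw [Nat.factorization_gcd hq ha]; rfl
  rw [f2, f3] at e
  have h2 := ex_max 2 (by norm_num) (q.factorization 2) (a.factorization 2)
  have h3 := ex_max 3 (by norm_num) (q.factorization 3) (a.factorization 3)
  have ea := ex_real a ha ha'
  rw [← h2, ← h3] at ea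
  unfold wz xz
  simp only
  have haR : (a : ℝ) ≠ 0 := by exact_mod_cast ha
  rw [eq_div_iff haR, inv_mul_eq_iff_eq_mul₀ (by positivity), ← ea, ← e]
  ring

theorem xz_inj (q a b : ℕ) (ha : a ≠ 0) (hb : b ≠ 0) (ha' : a.primeFactors ⊆ {2, 3})
    (hb' : b.primeFactors ⊆ {2, 3}) (h : xz q a = xz q b) : a = b := by
  unfold xz at h
  rw [Prod.mk.injEq] at h
  have h2 : a.factorization 2 = b.factorization 2 := by omega
  have h3 : a.factorization 3 = b.factorization 3 := by omega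
  rw [← ex_nat a ha ha', ← ex_nat b hb hb', h2, h3]

/-- (uses the three theorems) -/
theorem AA_le_of_zsum (m q Y : ℕ) (hm : m ≠ 0) (hq : q ≠ 0) (hm' : m.primeFactors ⊆ {2, 3})
    (hq' : q.primeFactors ⊆ {2, 3}) (B : ℝ)
    (h : ∀ T : Finset (ℤ × ℤ), (∀ x ∈ T, (Y : ℝ) ≤ rz x) → ∑ x ∈ T, wz x ≤ B) : AA m q Y ≤ B := by
  have hmem : ∀ a ∈ m.divisors.filter (fun a => Y * q ≤ a),
      a ≠ 0 ∧ a.primeFactors ⊆ {2, 3} ∧ Y * q ≤ a := by
    intro a ha
    rw [Finset.mem_filter, Nat.mem_divisors] at ha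
    have ha0 : a ≠ 0 := ne_zero_of_dvd_ne_zero hm ha.1.1
    exact ⟨ha0, (Nat.primeFactors_mono ha.1.1 hm).trans hm', ha.2⟩
  have hT := h ((m.divisors.filter (fun a => Y * q ≤ a)).image (xz q)) (by
    intro x hx
    obtain ⟨a, ha, rfl⟩ := Finset.mem_image.1 hx
    obtain ⟨h0, h1, h2⟩ := hmem a ha
    rw [rz_xz q a hq h0 hq' h1, le_div_iff₀ (by positivity)]
    exact_mod_cast h2)
  rw [Finset.sum_image (by
    intro a ha b hb hab
    obtain ⟨a0, a1, _⟩ := hmem a ha
    obtain ⟨b0, b1, _⟩ := hmem b hb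
    exact xz_inj q a b a0 b0 a1 b1 hab)] at hT
  refine le_trans (le_of_eq ?_) hT
  unfold AA
  refine Finset.sum_congr rfl fun a ha => ?_
  obtain ⟨h0, h1, _⟩ := hmem a ha
  exact (wz_xz q a hq h0 hq' h1).symm

end Pool.Agent.HL
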