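import Pool.Agent.HL.ZSum

/-!
# Project HL: numerical instances of zsum (row HL-2)
-/

set_option autoImplicit false

namespace Pool.Agent.HL

private theorem low2 {m e : ℕ} {c : ℝ} (h : c ≤ 2 ^ e) (h' : (2 : ℝ) ^ m < c) : m + 1 ≤ e := by
  by_contra hc
  have h1 : e ≤ m := by omega
  have h2 : (2 : ℝ) ^ e ≤ 2 ^ m := pow_le_pow_right₀ (by norm_num) h1
  linarith

private theorem low3 {m e : ℕ} {c : ℝ} (h : c ≤ 3 ^ e) (h' : (3 : ℝ) ^ m < c) : m + 1 ≤ e := by
  by_contra hc
  have h1 : e ≤ m := by omega
  have h2 : (3 : ℝ) ^ e ≤ 3 ^ m := pow_le_pow_right₀ (by norm_num) h1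
  linarith

theorem zsum1 (T : Finset (ℤ × ℤ)) (hT : ∀ x ∈ T, 1 ≤ rz x) : ∑ x ∈ T, wz x ≤ 4.6594 := by
  have h := zsum 1 (by norm_num) 5 8 (by norm_num) (by norm_num)
    (fun k => if k = 1 then 2 else if k = 2 then 4 else if k = 3 then 5 else 7)
    (fun k => if k = 1 then 1 else if k = 2 then 2 else if k = 3 then 2 else if k = 4 then 3 else if k = 5 then 4 else if k = 6 then 4 else 5)
    (by
      intro k h1 h2 e he
      interval_cases k <;> norm_num at he ⊢ <;>
        exact low2 he (by norm_num))
    (by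
      intro k h1 h2 f hf
      interval_cases k <;> norm_num at hf ⊢ <;>
        exact low3 hf (by norm_num))
    ∅
    (by
      intro x hx
      simp at hx)
    T hT
  refine h.trans ?_
  norm_num [Finset.sum_Ico_eq_sum_range, Finset.sum_range_succ]

theorem zsum2 (T : Finset (ℤ × ℤ)) (hT : ∀ x ∈ T, 2 ≤ rz x) : ∑ x ∈ T, wz x ≤ 2.7978 := by
  have h := zsum 2 (by norm_num) 5 8 (by norm_num) (by norm_num)
    (fun k => if k = 1 then 3 else if k = 2 then 5 else if k = 3 then 6 else 8)
    (fun k => if k = 1 then 2 else if k = 2 then 2 else if k = 3 then 3 else if k = 4 then 4 else if k = 5 then 4 else if k = 6 then 5 else 6)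
    (by
      intro k h1 h2 e he
      interval_cases k <;> norm_num at he ⊢ <;>
        exact low2 he (by norm_num))
    (by
      intro k h1 h2 f hf
      interval_cases k <;> norm_num at hf ⊢ <;>
        exact low3 hf (by norm_num))
    {(0, 0)}
    (by
      intro x hx
      fin_cases hx <;> norm_num)
    T hT
  refine h.trans ?_
  norm_num [Finset.sum_Ico_eq_sum_range, Finset.sum_range_succ]

theorem zsum12 (T : Finset (ℤ × ℤ)) (hT : ∀ x ∈ T, 12 ≤ rz x) : ∑ x ∈ T, wz x ≤ 0.6585 := by
  have h := zsum 12 (by norm_num) 5 8 (by norm_num) (by norm_num)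
    (fun k => if k = 1 then 6 else if k = 2 then 7 else if k = 3 then 9 else 10)
    (fun k => if k = 1 then 3 else if k = 2 then 4 else if k = 3 then 5 else if k = 4 then 5 else if k = 5 then 6 else if k = 6 then 7 else 7)
    (by
      intro k h1 h2 e he
      interval_cases k <;> norm_num at he ⊢ <;>
        exact low2 he (by norm_num))
    (by
      intro k h1 h2 f hf
      interval_cases k <;> norm_num at hf ⊢ <;>
        exact low3 hf (by norm_num))
    {(0, 0), (0, 1), (0, 2), (1, 0), (1, 1), (2, 0), (3, 0)}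
    (by
      intro x hx
      fin_cases hx <;> norm_num)
    T hT
  refine h.trans ?_
  norm_num [Finset.sum_Ico_eq_sum_range, Finset.sum_range_succ]

theorem zsum16 (T : Finset (ℤ × ℤ)) (hT : ∀ x ∈ T, 16 ≤ rz x) : ∑ x ∈ T, wz x ≤ 0.5248 := by
  have h := zsum 16 (by norm_num) 5 8 (by norm_num) (by norm_num)
    (fun k => if k = 1 then 6 else if k = 2 then 8 else if k = 3 then 9 else 11)
    (fun k => if k = 1 then 4 else if k = 2 then 4 else if k = 3 then 5 else if k = 4 then 6 else if k = 5 then 6 else if k = 6 then 7 else 7)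
    (by
      intro k h1 h2 e he
      interval_cases k <;> norm_num at he ⊢ <;>
        exact low2 he (by norm_num))
    (by
      intro k h1 h2 f hf
      interval_cases k <;> norm_num at hf ⊢ <;>
        exact low3 hf (by norm_num))
    {(0, 0), (0, 1), (0, 2), (1, 0), (1, 1), (2, 0), (2, 1), (3, 0)}
    (by
      intro x hx
      fin_cases hx <;> norm_num)
    T hT
  refine h.trans ?_
  norm_num [Finset.sum_Ico_eq_sum_range, Finset.sum_range_succ]

theorem zsum18 (T : Finset (ℤ × ℤ)) (hT : ∀ x ∈ T, 18 ≤ rz x) : ∑ x ∈ T, wz x ≤ 0.4616 := by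
  have h := zsum 18 (by norm_num) 5 8 (by norm_num) (by norm_num)
    (fun k => if k = 1 then 6 else if k = 2 then 8 else if k = 3 then 9 else 11)
    (fun k => if k = 1 then 4 else if k = 2 then 4 else if k = 3 then 5 else if k = 4 then 6 else if k = 5 then 6 else if k = 6 then 7 else 8)
    (by
      intro k h1 h2 e he
      interval_cases k <;> norm_num at he ⊢ <;>
        exact low2 he (by norm_num))
    (by
      intro k h1 h2 f hf
      interval_cases k <;> norm_num at hf ⊢ <;>
        exact low3 hf (by norm_num))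
    {(0, 0), (0, 1), (0, 2), (1, 0), (1, 1), (2, 0), (2, 1), (3, 0), (4, 0)}
    (by
      intro x hx
      fin_cases hx <;> norm_num)
    T hT
  refine h.trans ?_
  norm_num [Finset.sum_Ico_eq_sum_range, Finset.sum_range_succ]

end Pool.Agent.HL
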