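import Pool.Agent.HL.Defs
import Pool.Agent.HL.ZNum
import Pool.Agent.HL.Ex23

/-!
# HL-8 (MP_961d7e_lc): the exceptional ratios
-/

set_option autoImplicit false

namespace Pool.Agent.HL

namespace ExcAux

/-- The corrections at the exceptional ratios `12`, `16`, `18`, `27`, `27 / 2`. -/
noncomputable def cor (x : ℤ × ℤ) : ℝ :=
  if x = (2, 1) then 1 / 24 else if x = (4, 0) then 1 / 32 else if x = (1, 2) then 1 / 36
  else if x = (0, 3) then 1 / 54 else if x = (-1, 3) then 1 / 36 else 0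

/-- The exceptional exponents. -/
def exs : Finset (ℤ × ℤ) := {(2, 1), (4, 0), (1, 2), (0, 3), (-1, 3)}

theorem cor_nonneg (x : ℤ × ℤ) : 0 ≤ cor x := by
  unfold cor
  split_ifs <;> norm_num

theorem sum_cor : ∑ x ∈ exs, cor x = 1 / 24 + 1 / 32 + 1 / 36 + 1 / 54 + 1 / 36 := by
  unfold exs
  rw [Finset.sum_insert (by decide), Finset.sum_insert (by decide),
    Finset.sum_insert (by decide), Finset.sum_insert (by decide), Finset.sum_singleton]
  simp [cor]
  norm_num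

theorem wz_nonneg (x : ℤ × ℤ) : 0 ≤ wz x := by unfold wz; positivity

theorem wz21 : wz (2, 1) = 1 / 12 := by unfold wz; norm_num [zpow_ofNat]
theorem wz40 : wz (4, 0) = 1 / 16 := by
  unfold wz
  rw [show max ((4 : ℤ), (0 : ℤ)).1 0 = ((4 : ℕ) : ℤ) by decide,
    show max ((4 : ℤ), (0 : ℤ)).2 0 = ((0 : ℕ) : ℤ) by decide, zpow_natCast, zpow_natCast]
  norm_num
theorem wz12 : wz (1, 2) = 1 / 18 := by
  unfold wz
  rw [show max ((1 : ℤ), (2 : ℤ)).1 0 = ((1 : ℕ) : ℤ) by decide,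
    show max ((1 : ℤ), (2 : ℤ)).2 0 = ((2 : ℕ) : ℤ) by decide, zpow_natCast, zpow_natCast]
  norm_num
theorem wz03 : wz (0, 3) = 1 / 27 := by
  unfold wz
  rw [show max ((0 : ℤ), (3 : ℤ)).1 0 = ((0 : ℕ) : ℤ) by decide,
    show max ((0 : ℤ), (3 : ℤ)).2 0 = ((3 : ℕ) : ℤ) by decide, zpow_natCast, zpow_natCast]
  norm_num
theorem wzm13 : wz (-1, 3) = 1 / 27 := by
  unfold wz
  rw [show max ((-1 : ℤ), (3 : ℤ)).1 0 = ((0 : ℕ) : ℤ) by decide,
    show max ((-1 : ℤ), (3 : ℤ)).2 0 = ((3 : ℕ) : ℤ) by decide, zpow_natCast, zpow_natCast]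
  norm_num

theorem rz21 : rz (2, 1) = 12 := by
  unfold rz
  rw [show ((2 : ℤ), (1 : ℤ)).1 = ((2 : ℕ) : ℤ) by rfl,
    show ((2 : ℤ), (1 : ℤ)).2 = ((1 : ℕ) : ℤ) by rfl, zpow_natCast, zpow_natCast]
  norm_num
theorem rz40 : rz (4, 0) = 16 := by
  unfold rz
  rw [show ((4 : ℤ), (0 : ℤ)).1 = ((4 : ℕ) : ℤ) by rfl,
    show ((4 : ℤ), (0 : ℤ)).2 = ((0 : ℕ) : ℤ) by rfl, zpow_natCast, zpow_natCast]
  norm_num
theorem rz12 : rz (1, 2) = 18 := by
  unfold rz
  rw [show ((1 : ℤ), (2 : ℤ)).1 = ((1 : ℕ) : ℤ) by rfl,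
    show ((1 : ℤ), (2 : ℤ)).2 = ((2 : ℕ) : ℤ) by rfl, zpow_natCast, zpow_natCast]
  norm_num
theorem rz03 : rz (0, 3) = 27 := by
  unfold rz
  rw [show ((0 : ℤ), (3 : ℤ)).1 = ((0 : ℕ) : ℤ) by rfl,
    show ((0 : ℤ), (3 : ℤ)).2 = ((3 : ℕ) : ℤ) by rfl, zpow_natCast, zpow_natCast]
  norm_num
theorem rzm13 : rz (-1, 3) = 27 / 2 := by
  unfold rz
  rw [show ((-1 : ℤ), (3 : ℤ)).1 = -((1 : ℕ) : ℤ) by rfl,
    show ((-1 : ℤ), (3 : ℤ)).2 = ((3 : ℕ) : ℤ) by rfl, zpow_neg, zpow_natCast, zpow_natCast]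
  norm_num

theorem cor_le (x : ℤ × ℤ) : cor x ≤ wz x := by
  unfold cor
  split_ifs with h1 h2 h3 h4 h5
  · rw [h1, wz21]; norm_num
  · rw [h2, wz40]; norm_num
  · rw [h3, wz12]; norm_num
  · rw [h4, wz03]; norm_num
  · rw [h5, wzm13]; norm_num
  · exact wz_nonneg x

theorem gcd_mul (q0 q a b : ℕ) (h : q * a = q0 * b) (hab : Nat.gcd a b = 1) :
    Nat.gcd q0 q * b = q := by
  rw [← Nat.gcd_mul_right, ← h, Nat.gcd_mul_left, hab, mul_one]

theorem w_le (q0 q r : ℕ) (w : ℝ) (hq : q ≠ 0)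
    (hw : w ≤ ((Nat.gcd q0 q : ℕ) : ℝ) / ((q : ℝ) * (r : ℝ))) (a b : ℕ)
    (h : q * a = q0 * b) (hab : Nat.gcd a b = 1) (hb : b ≠ 0) : w ≤ 1 / ((b : ℝ) * (r : ℝ)) := by
  refine hw.trans (le_of_eq ?_)
  have h1 : ((Nat.gcd q0 q : ℕ) : ℝ) * (b : ℝ) = (q : ℝ) := by exact_mod_cast gcd_mul q0 q a b h hab
  have hb' : (b : ℝ) ≠ 0 := by exact_mod_cast hb
  have hg : ((Nat.gcd q0 q : ℕ) : ℝ) ≠ 0 := by
    have : Nat.gcd q0 q ≠ 0 := by
      intro h0
      exact hq (Nat.eq_zero_of_gcd_eq_zero_right h0)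
    exact_mod_cast this
  rcases eq_or_ne (r : ℝ) 0 with hr | hr
  · rw [hr]; simp
  · rw [← h1]
    field_simp

theorem not23 {r : ℕ} (h : r.primeFactors ⊆ {2, 3}) (p : ℕ) (hp : p.Prime) (h2 : p ≠ 2)
    (h3 : p ≠ 3) (hr : r ≠ 0) : ¬ p ∣ r := by
  intro hd
  have := h (Nat.mem_primeFactors.2 ⟨hp, hd, hr⟩)
  simp at this
  omega

/-- The possible values of `r`. -/
theorem r_cases (r : ℕ) (h12 : 12 ≤ r) (h27 : r ≤ 27) (h : r.primeFactors ⊆ {2, 3}) :
    r = 12 ∨ r = 16 ∨ r = 18 ∨ r = 24 ∨ r = 27 := by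
  have h5 := not23 h 5 (by norm_num) (by norm_num) (by norm_num) (by omega)
  have h7 := not23 h 7 (by norm_num) (by norm_num) (by norm_num) (by omega)
  have h11 := not23 h 11 (by norm_num) (by norm_num) (by norm_num) (by omega)
  have h13 := not23 h 13 (by norm_num) (by norm_num) (by norm_num) (by omega)
  have h17 := not23 h 17 (by norm_num) (by norm_num) (by norm_num) (by omega)
  have h19 := not23 h 19 (by norm_num) (by norm_num) (by norm_num) (by omega)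
  have h23 := not23 h 23 (by norm_num) (by norm_num) (by norm_num) (by omega)
  interval_cases r <;> omega

theorem main_le (q0 q r : ℕ) (w : ℝ) (hq0 : q0 ≠ 0) (hq0' : q0.primeFactors ⊆ {2, 3})
    (hq : q ≠ 0 ∧ q.primeFactors ⊆ {2, 3}) (hr : 12 ≤ r ∧ r.primeFactors ⊆ {2, 3})
    (hmin : q0 ≤ q) (hw : w ≤ ((Nat.gcd q0 q : ℕ) : ℝ) / ((q : ℝ) * (r : ℝ)))
    (hE : q = q0 → w ≤ 1 / (2 * (r : ℝ))) : w ≤ wz (xz q0 (q * r)) - cor (xz q0 (q * r)) := by
  have hr0 : r ≠ 0 := by omega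
  have hd0 : q * r ≠ 0 := mul_ne_zero hq.1 hr0
  have hd' : (q * r).primeFactors ⊆ {2, 3} := by
    rw [Nat.primeFactors_mul hq.1 hr0]
    exact Finset.union_subset hq.2 hr.2
  have hrz := rz_xz q0 (q * r) hq0 hd0 hq0' hd'
  have hwz := wz_xz q0 (q * r) hq0 hd0 hq0' hd'
  have hq0R : (0 : ℝ) < (q0 : ℝ) := by exact_mod_cast Nat.pos_of_ne_zero hq0
  have hle : w ≤ wz (xz q0 (q * r)) := by
    rw [hwz]
    refine hw.trans ?_
    push_cast
    have h1 : Nat.gcd q0 q ≤ Nat.gcd q0 (q * r) :=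
      Nat.le_of_dvd (Nat.gcd_pos_of_pos_left _ (Nat.pos_of_ne_zero hq0))
        (Nat.gcd_dvd_gcd_mul_right_right _ _ _)
    gcongr
  have key : ∀ (m n : ℕ), n ≠ 0 → (m : ℝ) / (n : ℝ) = rz (xz q0 (q * r)) →
      n * (q * r) = m * q0 := by
    intro m n hn h
    rw [hrz] at h
    have hn' : (n : ℝ) ≠ 0 := by exact_mod_cast hn
    rw [div_eq_div_iff hn' hq0R.ne'] at h
    have : m * q0 = (q * r) * n := by exact_mod_cast h
    rw [this]; ring
  have hqr : q0 * r ≤ q * r := Nat.mul_le_mul_right r hmin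
  have up : ∀ (m n : ℕ), n * (q * r) = m * q0 → n * r ≤ m := by
    intro m n h
    have h1 : q0 * (n * r) ≤ q0 * m := by
      calc q0 * (n * r) = n * (q0 * r) := by ring
        _ ≤ n * (q * r) := Nat.mul_le_mul_left n hqr
        _ = q0 * m := by rw [h]; ring
    exact Nat.le_of_mul_le_mul_left h1 (Nat.pos_of_ne_zero hq0)
  by_cases c1 : xz q0 (q * r) = (2, 1)
  · have h := key 12 1 one_ne_zero (by rw [c1, rz21]; norm_num)
    have hu := up 12 1 h
    have hr12 : r = 12 := by omega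
    subst hr12
    have hqq : q = q0 := by omega
    have := hE hqq
    rw [c1, wz21, show cor (2, 1) = 1 / 24 by simp [cor]]
    norm_num at this ⊢
    linarith
  by_cases c2 : xz q0 (q * r) = (4, 0)
  · have h := key 16 1 one_ne_zero (by rw [c2, rz40]; norm_num)
    have hu := up 16 1 h
    rw [c2, wz40, show cor (4, 0) = 1 / 32 by simp [cor]]
    rcases r_cases r hr.1 (by omega) hr.2 with h' | h' | h' | h' | h' <;> subst h'
    · have := w_le q0 q 12 w hq.1 hw 3 4 (by omega) (by norm_num) (by norm_num)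
      norm_num at this ⊢
      linarith
    · have := hE (by omega)
      norm_num at this ⊢
      linarith
    all_goals omega
  by_cases c3 : xz q0 (q * r) = (1, 2)
  · have h := key 18 1 one_ne_zero (by rw [c3, rz12]; norm_num)
    have hu := up 18 1 h
    rw [c3, wz12, show cor (1, 2) = 1 / 36 by simp [cor]]
    rcases r_cases r hr.1 (by omega) hr.2 with h' | h' | h' | h' | h' <;> subst h'
    · have := w_le q0 q 12 w hq.1 hw 2 3 (by omega) (by norm_num) (by norm_num)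
      norm_num at this ⊢
      linarith
    · have := w_le q0 q 16 w hq.1 hw 8 9 (by omega) (by norm_num) (by norm_num)
      norm_num at this ⊢
      linarith
    · have := hE (by omega)
      norm_num at this ⊢
      linarith
    all_goals omega
  by_cases c4 : xz q0 (q * r) = (0, 3)
  · have h := key 27 1 one_ne_zero (by rw [c4, rz03]; norm_num)
    have hu := up 27 1 h
    rw [c4, wz03, show cor (0, 3) = 1 / 54 by simp [cor]]
    rcases r_cases r hr.1 (by omega) hr.2 with h' | h' | h' | h' | h' <;> subst h'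
    · have := w_le q0 q 12 w hq.1 hw 4 9 (by omega) (by norm_num) (by norm_num)
      norm_num at this ⊢
      linarith
    · have := w_le q0 q 16 w hq.1 hw 16 27 (by omega) (by norm_num) (by norm_num)
      norm_num at this ⊢
      linarith
    · have := w_le q0 q 18 w hq.1 hw 2 3 (by omega) (by norm_num) (by norm_num)
      norm_num at this ⊢
      linarith
    · have := w_le q0 q 24 w hq.1 hw 8 9 (by omega) (by norm_num) (by norm_num)
      norm_num at this ⊢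
      linarith
    · have := hE (by omega)
      norm_num at this ⊢
      linarith
  by_cases c5 : xz q0 (q * r) = (-1, 3)
  · have h := key 27 2 two_ne_zero (by rw [c5, rzm13]; norm_num)
    have hu := up 27 2 h
    rw [c5, wzm13, show cor (-1, 3) = 1 / 36 by simp [cor]]
    rcases r_cases r hr.1 (by omega) hr.2 with h' | h' | h' | h' | h' <;> subst h'
    · have := w_le q0 q 12 w hq.1 hw 8 9 (by omega) (by norm_num) (by norm_num)
      norm_num at this ⊢
      linarith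
    all_goals omega
  have : cor (xz q0 (q * r)) = 0 := by
    unfold cor
    rw [if_neg c1, if_neg c2, if_neg c3, if_neg c4, if_neg c5]
  rw [this, sub_zero]
  exact hle

theorem rz_exs (x : ℤ × ℤ) (hx : x ∈ exs) : 12 ≤ rz x := by
  simp only [exs, Finset.mem_insert, Finset.mem_singleton] at hx
  rcases hx with rfl | rfl | rfl | rfl | rfl
  · rw [rz21]
  · rw [rz40]; norm_num
  · rw [rz12]; norm_num
  · rw [rz03]; norm_num
  · rw [rzm13]; norm_num

end ExcAux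

open ExcAux in
theorem exc {ι : Type} (q0 : ℕ) (hq0 : q0 ≠ 0) (hq0' : q0.primeFactors ⊆ {2, 3})
    (U : Finset ι) (q r : ι → ℕ) (w : ι → ℝ)
    (hinj : ∀ i ∈ U, ∀ j ∈ U, q i * r i = q j * r j → i = j)
    (hq : ∀ i ∈ U, q i ≠ 0 ∧ (q i).primeFactors ⊆ {2, 3})
    (hr : ∀ i ∈ U, 12 ≤ r i ∧ (r i).primeFactors ⊆ {2, 3})
    (hmin : ∀ i ∈ U, q0 ≤ q i)
    (hw : ∀ i ∈ U, w i ≤ ((Nat.gcd q0 (q i) : ℕ) : ℝ) / ((q i : ℝ) * (r i : ℝ)))
    (hE : ∀ i ∈ U, q i = q0 → w i ≤ 1 / (2 * (r i : ℝ))) :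
    ∑ i ∈ U, w i ≤ 0.5116 := by
  classical
  have hr0 : ∀ i ∈ U, r i ≠ 0 := fun i hi => by have := (hr i hi).1; omega
  have hd0 : ∀ i ∈ U, q i * r i ≠ 0 := fun i hi => mul_ne_zero (hq i hi).1 (hr0 i hi)
  have hd' : ∀ i ∈ U, (q i * r i).primeFactors ⊆ {2, 3} := fun i hi => by
    rw [Nat.primeFactors_mul (hq i hi).1 (hr0 i hi)]
    exact Finset.union_subset (hq i hi).2 (hr i hi).2
  have hinjx : Set.InjOn (fun i => xz q0 (q i * r i)) U := by
    intro i hi j hj h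
    exact hinj i hi j hj (xz_inj q0 _ _ (hd0 i hi) (hd0 j hj) (hd' i hi) (hd' j hj) h)
  set T : Finset (ℤ × ℤ) := U.image fun i => xz q0 (q i * r i) with hT
  have hTr : ∀ x ∈ T ∪ exs, 12 ≤ rz x := by
    intro x hx
    rcases Finset.mem_union.1 hx with hx | hx
    · obtain ⟨i, hi, rfl⟩ := Finset.mem_image.1 hx
      rw [rz_xz q0 _ hq0 (hd0 i hi) hq0' (hd' i hi)]
      have hq0R : (0 : ℝ) < (q0 : ℝ) := by exact_mod_cast Nat.pos_of_ne_zero hq0
      rw [le_div_iff₀ hq0R]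
      have h1 : 12 * q0 ≤ q i * r i := by
        have := Nat.mul_le_mul (hmin i hi) (hr i hi).1
        omega
      exact_mod_cast h1
    · exact rz_exs x hx
  calc ∑ i ∈ U, w i
      ≤ ∑ i ∈ U, (wz (xz q0 (q i * r i)) - cor (xz q0 (q i * r i))) :=
        Finset.sum_le_sum fun i hi => main_le q0 (q i) (r i) (w i) hq0 hq0' (hq i hi) (hr i hi)
          (hmin i hi) (hw i hi) (hE i hi)
    _ = ∑ x ∈ T, (wz x - cor x) := by
        rw [hT, Finset.sum_image hinjx]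
    _ ≤ ∑ x ∈ T ∪ exs, (wz x - cor x) :=
        Finset.sum_le_sum_of_subset_of_nonneg Finset.subset_union_left
          fun x _ _ => sub_nonneg.2 (cor_le x)
    _ = ∑ x ∈ T ∪ exs, wz x - ∑ x ∈ T ∪ exs, cor x := Finset.sum_sub_distrib _ _
    _ ≤ 0.6585 - ∑ x ∈ exs, cor x := by
        refine sub_le_sub (zsum12 _ hTr) ?_
        exact Finset.sum_le_sum_of_subset_of_nonneg Finset.subset_union_right
          fun x _ _ => cor_nonneg x
    _ ≤ 0.5116 := by
        rw [sum_cor]; norm_num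

end Pool.Agent.HL
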