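import Pool.Agent.HL.Defs

/-!
# Project HL (MP_961d7e_lc): splitting off the part of a number with prime divisors in `s`
-/

set_option autoImplicit false

namespace Pool.Agent.HL

theorem exists_split (s t : Finset ℕ) (n : ℕ) (hn : n ≠ 0) (ht : ∀ p ∈ t, p.Prime) (hst : s ⊆ t)
    (hn' : n.primeFactors ⊆ t) :
    ∃ m u : ℕ, n = m * u ∧ m.Coprime u ∧ m.primeFactors ⊆ s ∧ u.primeFactors ⊆ t \ s ∧
      ∀ d, d ∣ n → d.primeFactors ⊆ s → d ∣ m := by
  have hprod : ∏ p ∈ t, p ^ n.factorization p = n := by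
    rw [← Finsupp.prod_of_support_subset n.factorization (s := t) (by simpa using hn')
      (fun p k => p ^ k) (by simp)]
    exact Nat.prod_factorization_pow_eq_self hn
  have hpf : ∀ A : Finset ℕ, A ⊆ t → (∏ p ∈ A, p ^ n.factorization p).primeFactors ⊆ A := by
    intro A hA p hp
    have hpp := Nat.prime_of_mem_primeFactors hp
    obtain ⟨q, hq, hpq⟩ := (hpp.prime.dvd_finsetProd_iff _).1 (Nat.dvd_of_mem_primeFactors hp)
    have h1 := hpp.dvd_of_dvd_pow hpq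
    rwa [(Nat.prime_dvd_prime_iff_eq hpp (ht q (hA hq))).1 h1]
  have hcop : ∀ a b : ℕ, a ≠ 0 → b ≠ 0 → a.primeFactors ⊆ s → b.primeFactors ⊆ t \ s →
      a.Coprime b := by
    intro a b ha hb h1 h2
    refine (Nat.disjoint_primeFactors ha hb).1 ?_
    rw [Finset.disjoint_left]
    intro p hp hp'
    exact (Finset.mem_sdiff.1 (h2 hp')).2 (h1 hp)
  have hn2 : n = (∏ p ∈ s, p ^ n.factorization p) * ∏ p ∈ t \ s, p ^ n.factorization p := by
    rw [mul_comm, Finset.prod_sdiff hst, hprod]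
  have hm0 : (∏ p ∈ s, p ^ n.factorization p) ≠ 0 := left_ne_zero_of_mul (hn2 ▸ hn)
  have hu0 : (∏ p ∈ t \ s, p ^ n.factorization p) ≠ 0 := right_ne_zero_of_mul (hn2 ▸ hn)
  refine ⟨_, _, hn2, hcop _ _ hm0 hu0 (hpf s hst) (hpf _ Finset.sdiff_subset), hpf s hst,
    hpf _ Finset.sdiff_subset, fun d hd hds => ?_⟩
  have hd0 : d ≠ 0 := ne_zero_of_dvd_ne_zero hn hd
  rw [hn2] at hd
  exact (hcop d _ hd0 hu0 hds (hpf _ Finset.sdiff_subset)).dvd_of_dvd_mul_right hd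

theorem split0 {ι : Type} (m q0 Y : ℕ) (hm : m ≠ 0) (U : Finset ι) (q r : ι → ℕ) (w : ι → ℝ)
    (hinj : ∀ i ∈ U, ∀ j ∈ U, q i * r i = q j * r j → i = j)
    (hd : ∀ i ∈ U, q i * r i ∣ m)
    (hw : ∀ i ∈ U, w i ≤ ((Nat.gcd q0 (q i) : ℕ) : ℝ) / ((q i : ℝ) * (r i : ℝ)))
    (hY : ∀ i ∈ U, Y * q0 ≤ q i * r i) : ∑ i ∈ U, w i ≤ AA m q0 Y := by
  classical
  calc ∑ i ∈ U, w i ≤ ∑ i ∈ U, ((Nat.gcd q0 (q i * r i) : ℕ) : ℝ) / ((q i * r i : ℕ) : ℝ) := by
        refine Finset.sum_le_sum fun i hi => (hw i hi).trans ?_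
        have h0 : q i * r i ≠ 0 := ne_zero_of_dvd_ne_zero hm (hd i hi)
        have h1 : Nat.gcd q0 (q i) ≤ Nat.gcd q0 (q i * r i) :=
          Nat.le_of_dvd (Nat.gcd_pos_of_pos_right _ (Nat.pos_of_ne_zero h0))
            (Nat.gcd_dvd_gcd_of_dvd_right _ (Nat.dvd_mul_right _ _))
        push_cast
        gcongr
    _ = ∑ a ∈ U.image (fun i => q i * r i), ((Nat.gcd q0 a : ℕ) : ℝ) / (a : ℝ) := by
        rw [Finset.sum_image (fun i hi j hj h => hinj i hi j hj h)]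
    _ ≤ AA m q0 Y := by
        unfold AA
        refine Finset.sum_le_sum_of_subset_of_nonneg (fun a ha => ?_) (fun a _ _ => by positivity)
        obtain ⟨i, hi, rfl⟩ := Finset.mem_image.1 ha
        exact Finset.mem_filter.2 ⟨Nat.mem_divisors.2 ⟨hd i hi, hm⟩, hY i hi⟩

theorem split1 {ι : Type} (m t q0 Z : ℕ) (hm : m ≠ 0) (ht : t ≠ 0) (hmt : m.Coprime t)
    (U : Finset ι) (q r : ι → ℕ) (w : ι → ℝ)
    (hinj : ∀ i ∈ U, ∀ j ∈ U, q i * r i = q j * r j → i = j)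
    (hqm : ∀ i ∈ U, q i ∣ m)
    (hd : ∀ i ∈ U, q i * r i ∣ m * t) (hd' : ∀ i ∈ U, ¬ q i * r i ∣ m)
    (hw : ∀ i ∈ U, w i ≤ ((Nat.gcd q0 (q i) : ℕ) : ℝ) / ((q i : ℝ) * (r i : ℝ)))
    (hZ : ∀ i ∈ U, Z * q0 ≤ Nat.gcd (q i * r i) m) :
    ∑ i ∈ U, w i ≤ (BB t - 1) * AA m q0 Z := by
  classical
  have hab : ∀ i ∈ U, q i * r i = Nat.gcd (q i * r i) m * Nat.gcd (q i * r i) t := by
    intro i hi
    rw [← hmt.gcd_mul, Nat.gcd_eq_left (hd i hi)]
  let F : ι → ℕ × ℕ := fun i => (Nat.gcd (q i * r i) m, Nat.gcd (q i * r i) t)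
  let g : ℕ × ℕ → ℝ := fun z => ((Nat.gcd q0 z.1 : ℕ) : ℝ) / (z.1 : ℝ) * (1 / (z.2 : ℝ))
  calc ∑ i ∈ U, w i ≤ ∑ i ∈ U, g (F i) := by
        refine Finset.sum_le_sum fun i hi => (hw i hi).trans ?_
        have h0 : q i * r i ≠ 0 := ne_zero_of_dvd_ne_zero (mul_ne_zero hm ht) (hd i hi)
        have h1 : Nat.gcd q0 (q i) ≤ Nat.gcd q0 (Nat.gcd (q i * r i) m) :=
          Nat.le_of_dvd (Nat.gcd_pos_of_pos_right _ (Nat.gcd_pos_of_pos_right _
            (Nat.pos_of_ne_zero hm)))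
            (Nat.gcd_dvd_gcd_of_dvd_right _ (Nat.dvd_gcd (Nat.dvd_mul_right _ _) (hqm i hi)))
        have h2 : ((q i : ℝ) * (r i : ℝ)) = (Nat.gcd (q i * r i) m : ℝ) *
            (Nat.gcd (q i * r i) t : ℝ) := by exact_mod_cast hab i hi
        show _ ≤ ((Nat.gcd q0 (Nat.gcd (q i * r i) m) : ℕ) : ℝ) / (Nat.gcd (q i * r i) m : ℝ) *
          (1 / (Nat.gcd (q i * r i) t : ℝ))
        rw [h2, div_mul_div_comm, mul_one]
        gcongr
    _ = ∑ z ∈ U.image F, g z := by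
        rw [Finset.sum_image]
        intro i hi j hj h
        refine hinj i hi j hj ?_
        rw [hab i hi, hab j hj]
        have h1 := congrArg Prod.fst h
        have h2 := congrArg Prod.snd h
        simp only [F] at h1 h2
        rw [h1, h2]
    _ ≤ ∑ z ∈ (m.divisors.filter (fun a => Z * q0 ≤ a)) ×ˢ (t.divisors.erase 1), g z := by
        refine Finset.sum_le_sum_of_subset_of_nonneg (fun z hz => ?_) (fun z _ _ => by
          show 0 ≤ ((Nat.gcd q0 z.1 : ℕ) : ℝ) / (z.1 : ℝ) * (1 / (z.2 : ℝ))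
          positivity)
        obtain ⟨i, hi, rfl⟩ := Finset.mem_image.1 hz
        refine Finset.mem_product.2 ⟨Finset.mem_filter.2 ⟨Nat.mem_divisors.2
          ⟨Nat.gcd_dvd_right _ _, hm⟩, hZ i hi⟩, Finset.mem_erase.2 ⟨fun h => hd' i hi ?_,
          Nat.mem_divisors.2 ⟨Nat.gcd_dvd_right _ _, ht⟩⟩⟩
        have h' : Nat.gcd (q i * r i) t = 1 := h
        rw [hab i hi, h', mul_one]
        exact Nat.gcd_dvd_right _ _
    _ = AA m q0 Z * (BB t - 1) := by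
        rw [Finset.sum_product]
        unfold AA BB
        rw [Finset.sum_mul]
        refine Finset.sum_congr rfl fun a _ => ?_
        simp only [g]
        rw [← Finset.mul_sum, Finset.sum_erase_eq_sub (Nat.mem_divisors.2 ⟨one_dvd _, ht⟩)]
        simp
    _ = _ := mul_comm _ _

end Pool.Agent.HL
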