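import Pool.Agent.HL.ZNum
import Pool.Agent.HL.Ex23
import Pool.Agent.HL.Beta
import Pool.Agent.HL.Split
import Pool.Agent.HL.Exc

/-! # Project HL (MP_961d7e_lc), HL-9: the numerical estimate for base sets inside `{2, 3}` -/

set_option autoImplicit false

namespace Pool.Agent.HL

private theorem n23_not {r p : ℕ} (hr : r.primeFactors ⊆ {2, 3}) (hp : p.Prime) (h5 : 3 < p)
    (hpr : p ∣ r) (hr0 : r ≠ 0) : False := by
  have h := hr (Nat.mem_primeFactors.2 ⟨hp, hpr, hr0⟩)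
  simp only [Finset.mem_insert, Finset.mem_singleton] at h
  omega

private theorem n23_12 {r : ℕ} (hr : r.primeFactors ⊆ {2, 3}) (h : 11 ≤ r) : 12 ≤ r := by
  rcases Nat.lt_or_ge r 12 with h1 | h1
  · have h2 : r = 11 := by omega
    subst h2
    exact (n23_not hr (by norm_num : Nat.Prime 11) (by norm_num) (dvd_refl _) (by norm_num)).elim
  · exact h1

private theorem n23_16 {r : ℕ} (hr : r.primeFactors ⊆ {2, 3}) (h : 13 ≤ r) : 16 ≤ r := by
  rcases Nat.lt_or_ge r 16 with h1 | h1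
  · have h2 : r = 13 ∨ r = 14 ∨ r = 15 := by omega
    rcases h2 with h2 | h2 | h2
    · subst h2
      exact (n23_not hr (by norm_num : Nat.Prime 13) (by norm_num) (dvd_refl _) (by norm_num)).elim
    · subst h2
      exact (n23_not hr (by norm_num : Nat.Prime 7) (by norm_num) (by norm_num) (by norm_num)).elim
    · subst h2
      exact (n23_not hr (by norm_num : Nat.Prime 5) (by norm_num) (by norm_num) (by norm_num)).elim
  · exact h1

private theorem n23_18 {r : ℕ} (hr : r.primeFactors ⊆ {2, 3}) (h : 17 ≤ r) : 18 ≤ r := by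
  rcases Nat.lt_or_ge r 18 with h1 | h1
  · have h2 : r = 17 := by omega
    subst h2
    exact (n23_not hr (by norm_num : Nat.Prime 17) (by norm_num) (dvd_refl _) (by norm_num)).elim
  · exact h1

private theorem n23_AA_nonneg (m q Y : ℕ) : 0 ≤ AA m q Y := by
  unfold AA
  exact Finset.sum_nonneg fun a _ => by positivity

private theorem n23_exp {x : ℝ} (h1 : x < 1) : Real.exp x ≤ 1 / (1 - x) := by
  have h2 : 0 < 1 - x := by linarith
  have h3 := Real.add_one_le_exp (-x)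
  rw [le_div_iff₀ h2]
  have h4 : 1 - x ≤ Real.exp (-x) := by linarith
  calc Real.exp x * (1 - x) ≤ Real.exp x * Real.exp (-x) :=
        mul_le_mul_of_nonneg_left h4 (Real.exp_pos _).le
    _ = 1 := by rw [← Real.exp_add, add_neg_cancel, Real.exp_zero]

theorem num_23 {ι : Type} (s t : Finset ℕ) (n : ℕ) (ht : ∀ p ∈ t, p.Prime) (hst : s ⊆ t)
    (hs : s ⊆ {2, 3}) (h : ∑ q ∈ t \ s, (1 : ℝ) / ((q : ℝ) - 1) ≤ 1 / 10) (hn : n ≠ 0)
    (hn' : n.primeFactors ⊆ t) (W : Wt ι s t n) : ∑ i ∈ W.U, W.w i < 1 := by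
  classical
  obtain ⟨m, u, hmu, hco, hms, hut, hsplit⟩ := exists_split s t n hn ht hst hn'
  have hm : m ≠ 0 := by rintro rfl; exact hn (by rw [hmu, zero_mul])
  have hu : u ≠ 0 := by rintro rfl; exact hn (by rw [hmu, mul_zero])
  have hσ : ∀ p ∈ t \ s, p.Prime := fun p hp => ht p (Finset.mem_sdiff.1 hp).1
  have hpos : ∀ q ∈ t \ s, (0 : ℝ) < 1 / ((q : ℝ) - 1) := fun q hq => by
    have h1 : (1 : ℝ) < q := by exact_mod_cast (hσ q hq).one_lt
    exact one_div_pos.2 (by linarith)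
  have h11 : ∀ q ∈ t \ s, 11 ≤ q := by
    intro q hq
    have h1 : 1 / ((q : ℝ) - 1) ≤ 1 / 10 :=
      (Finset.single_le_sum (fun p hp => (hpos p hp).le) hq).trans h
    have h2 : (1 : ℝ) < q := by exact_mod_cast (hσ q hq).one_lt
    have h3 : (10 : ℝ) ≤ (q : ℝ) - 1 := by
      rwa [one_div_le_one_div (by linarith) (by norm_num)] at h1
    have h4 : (11 : ℝ) ≤ q := by linarith
    exact_mod_cast h4
  -- elementary facts
  have hdn0 : ∀ i ∈ W.U, W.q i * W.r i ≠ 0 := fun i hi h0 => hn (by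
    have := W.hd i hi; rw [h0] at this; exact zero_dvd_iff.1 this)
  have hq0 : ∀ i ∈ W.U, W.q i ≠ 0 := fun i hi h0 => hdn0 i hi (by rw [h0, zero_mul])
  have hr0 : ∀ i ∈ W.U, W.r i ≠ 0 := fun i hi h0 => hdn0 i hi (by rw [h0, mul_zero])
  have hqm : ∀ i ∈ W.U, W.q i ∣ m := fun i hi =>
    hsplit _ ((Dvd.intro _ rfl).trans (W.hd i hi)) (W.hq i hi)
  set q0 := W.q W.i0 with hq0def
  have hqq0 : q0 ≠ 0 := hq0 _ W.hi0
  have hm23 : m.primeFactors ⊆ {2, 3} := hms.trans hs
  have hq23 : ∀ i ∈ W.U, (W.q i).primeFactors ⊆ {2, 3} := fun i hi => (W.hq i hi).trans hs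
  have A1 : AA m q0 1 ≤ 4.6594 := AA_le_of_zsum m q0 1 hm hqq0 hm23 (hq23 _ W.hi0) _
    fun T hT => zsum1 T (by simpa using hT)
  have A2 : AA m q0 2 ≤ 2.7978 := AA_le_of_zsum m q0 2 hm hqq0 hm23 (hq23 _ W.hi0) _
    fun T hT => zsum2 T (by simpa using hT)
  have A12 : AA m q0 12 ≤ 0.6585 := AA_le_of_zsum m q0 12 hm hqq0 hm23 (hq23 _ W.hi0) _
    fun T hT => zsum12 T (by simpa using hT)
  have A16 : AA m q0 16 ≤ 0.5248 := AA_le_of_zsum m q0 16 hm hqq0 hm23 (hq23 _ W.hi0) _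
    fun T hT => zsum16 T (by simpa using hT)
  have A18 : AA m q0 18 ≤ 0.4616 := AA_le_of_zsum m q0 18 hm hqq0 hm23 (hq23 _ W.hi0) _
    fun T hT => zsum18 T (by simpa using hT)
  -- the two parts
  set U0 := W.U.filter (fun i => W.q i * W.r i ∣ m) with hU0
  set U1 := W.U.filter (fun i => ¬ W.q i * W.r i ∣ m) with hU1
  have hsum : ∑ i ∈ W.U, W.w i = ∑ i ∈ U0, W.w i + ∑ i ∈ U1, W.w i :=
    (Finset.sum_filter_add_sum_filter_not _ _ _).symm
  have hm0 : ∀ i ∈ U0, i ∈ W.U ∧ W.q i * W.r i ∣ m := fun i hi => Finset.mem_filter.1 hi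
  have hm1 : ∀ i ∈ U1, i ∈ W.U ∧ ¬ W.q i * W.r i ∣ m := fun i hi => Finset.mem_filter.1 hi
  have hrs : ∀ i ∈ U0, (W.r i).primeFactors ⊆ s := fun i hi =>
    (Nat.primeFactors_mono ((Dvd.intro_left _ rfl).trans (hm0 i hi).2) hm).trans hms
  have hr23 : ∀ i ∈ U0, (W.r i).primeFactors ⊆ {2, 3} := fun i hi => (hrs i hi).trans hs
  -- the part `U0`
  have S0 : ∀ Y : ℕ, (∀ i ∈ U0, Y ≤ W.r i) → ∑ i ∈ U0, W.w i ≤ AA m q0 Y := by
    intro Y hY
    refine split0 m q0 Y hm U0 W.q W.r W.w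
      (fun i hi j hj => W.hinj i (hm0 i hi).1 j (hm0 j hj).1) (fun i hi => (hm0 i hi).2)
      (fun i hi => W.hw i (hm0 i hi).1) (fun i hi => ?_)
    rw [mul_comm (W.q i)]
    exact Nat.mul_le_mul (hY i hi) (W.hmin i (hm0 i hi).1)
  -- the part `U1`
  have S1 : ∀ V : Finset ι, V ⊆ U1 → ∀ Z : ℕ,
      (∀ i ∈ V, Z * q0 ≤ Nat.gcd (W.q i * W.r i) m) →
      ∑ i ∈ V, W.w i ≤ (BB u - 1) * AA m q0 Z := by
    intro V hV Z hZ
    exact split1 m u q0 Z hm hu hco V W.q W.r W.w
      (fun i hi j hj => W.hinj i (hm1 i (hV hi)).1 j (hm1 j (hV hj)).1)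
      (fun i hi => hqm i (hm1 i (hV hi)).1)
      (fun i hi => by rw [← hmu]; exact W.hd i (hm1 i (hV hi)).1)
      (fun i hi => (hm1 i (hV hi)).2) (fun i hi => W.hw i (hm1 i (hV hi)).1) hZ
  have hZ1 : ∀ i ∈ U1, 1 * q0 ≤ Nat.gcd (W.q i * W.r i) m := by
    intro i hi
    rw [one_mul]
    refine (W.hmin i (hm1 i hi).1).trans ?_
    exact Nat.le_of_dvd (Nat.gcd_pos_of_pos_right _ (Nat.pos_of_ne_zero hm))
      (Nat.dvd_gcd (Dvd.intro _ rfl) (hqm i (hm1 i hi).1))
  have hB := BB_le u hu (t \ s) hσ hut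
  have N1 := n23_AA_nonneg m q0 1
  have N2 := n23_AA_nonneg m q0 2
  have T1 := S1 U1 (Finset.Subset.refl _) 1 hZ1
  by_cases c11 : 11 ∈ t \ s
  · -- the case `σ = {11}`
    have hσ11 : t \ s = {11} := by
      ext q
      simp only [Finset.mem_singleton]
      constructor
      · intro hq
        by_contra hne
        have h1 : (1 : ℝ) / (((11 : ℕ) : ℝ) - 1) + 1 / ((q : ℝ) - 1) ≤ 1 / 10 := by
          refine le_trans ?_ h
          rw [← Finset.sum_pair (f := fun q : ℕ => (1 : ℝ) / ((q : ℝ) - 1)) (Ne.symm hne)]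
          refine Finset.sum_le_sum_of_subset_of_nonneg ?_ fun p hp _ => (hpos p hp).le
          intro p hp
          simp only [Finset.mem_insert, Finset.mem_singleton] at hp
          rcases hp with rfl | rfl
          · exact c11
          · exact hq
        have h2 := hpos q hq
        norm_num at h1 h2
        linarith
      · rintro rfl
        exact c11
    have hB1 : BB u - 1 ≤ 1 / 10 := by
      rw [hσ11, Finset.prod_singleton] at hB
      norm_num at hB
      linarith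
    have hr12 : ∀ i ∈ U0, 12 ≤ W.r i := by
      intro i hi
      obtain ⟨p, hp, hpr⟩ := W.hr i (hm0 i hi).1
      exact n23_12 (hr23 i hi) ((h11 p hp).trans hpr)
    by_cases hE : ∃ i ∈ U0, W.E i
    · obtain ⟨i, hi, hEi⟩ := hE
      set V := U1.filter (fun j => W.w j ≠ 0) with hV
      have hVs : ∑ j ∈ U1, W.w j = ∑ j ∈ V, W.w j := (Finset.sum_filter_ne_zero _).symm
      have hV2 : ∀ j ∈ V, 2 * q0 ≤ Nat.gcd (W.q j * W.r j) m := by
        intro j hj
        obtain ⟨hj1, hj2⟩ := Finset.mem_filter.1 hj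
        have hne : j ≠ i := by
          rintro rfl
          exact (hm1 j hj1).2 (hm0 j hi).2
        have h1 := (W.hc i (hm0 i hi).1 hEi j (hm1 j hj1).1 hne).resolve_left hj2
        obtain ⟨p, hp, hpi, hpj⟩ := Nat.Prime.not_coprime_iff_dvd.1 h1
        have hps : p ∈ s := hrs i hi (Nat.mem_primeFactors.2 ⟨hp, hpi, hr0 i (hm0 i hi).1⟩)
        have h2 : W.q j * p ∣ W.q j * W.r j := Nat.mul_dvd_mul_left _ hpj
        have h3 : W.q j * p ∣ m := by
          refine hsplit _ (h2.trans (W.hd j (hm1 j hj1).1)) ?_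
          rw [Nat.primeFactors_mul (hq0 j (hm1 j hj1).1) hp.ne_zero, hp.primeFactors]
          exact Finset.union_subset (W.hq j (hm1 j hj1).1) (Finset.singleton_subset_iff.2 hps)
        refine le_trans ?_ (Nat.le_of_dvd (Nat.gcd_pos_of_pos_right _ (Nat.pos_of_ne_zero hm))
          (Nat.dvd_gcd h2 h3))
        rw [mul_comm (W.q j)]
        exact Nat.mul_le_mul hp.two_le (W.hmin j (hm1 j hj1).1)
      have T2 := S1 V (Finset.filter_subset _ _) 2 hV2
      have T0 := S0 12 hr12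
      have T3 : (BB u - 1) * AA m q0 2 ≤ 1 / 10 * 2.7978 :=
        (mul_le_mul_of_nonneg_right hB1 N2).trans
          (mul_le_mul_of_nonneg_left A2 (by norm_num))
      rw [hsum, hVs]
      norm_num at T3 A12 ⊢
      linarith
    · push Not at hE
      have T0 := exc q0 hqq0 (hq23 _ W.hi0) U0 W.q W.r W.w
        (fun i hi j hj => W.hinj i (hm0 i hi).1 j (hm0 j hj).1)
        (fun i hi => ⟨hq0 i (hm0 i hi).1, hq23 i (hm0 i hi).1⟩)
        (fun i hi => ⟨hr12 i hi, hr23 i hi⟩) (fun i hi => W.hmin i (hm0 i hi).1)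
        (fun i hi => W.hw i (hm0 i hi).1)
        (fun i hi hqi => (W.hE i (hm0 i hi).1 hqi).resolve_left (hE i hi))
      have T3 : (BB u - 1) * AA m q0 1 ≤ 1 / 10 * 4.6594 :=
        (mul_le_mul_of_nonneg_right hB1 N1).trans
          (mul_le_mul_of_nonneg_left A1 (by norm_num))
      rw [hsum]
      norm_num at T0 T3 ⊢
      linarith
  by_cases c13 : 13 ∈ t \ s
  · -- the case `13 ∈ σ`
    have h13 : ∀ q ∈ t \ s, 13 ≤ q := by
      intro q hq
      have h1 := h11 q hq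
      by_contra h2
      have h3 : q = 11 ∨ q = 12 := by omega
      rcases h3 with rfl | rfl
      · exact c11 hq
      · exact absurd (hσ 12 hq) (by norm_num)
    have hr16 : ∀ i ∈ U0, 16 ≤ W.r i := by
      intro i hi
      obtain ⟨p, hp, hpr⟩ := W.hr i (hm0 i hi).1
      exact n23_16 (hr23 i hi) ((h13 p hp).trans hpr)
    have hB1 : BB u - 1 ≤ 6 / 59 := by
      have h1 : ∑ q ∈ (t \ s).erase 13, (1 : ℝ) / ((q : ℝ) - 1) ≤ 1 / 60 := by
        have h2 := Finset.add_sum_erase (t \ s) (fun q : ℕ => (1 : ℝ) / ((q : ℝ) - 1)) c13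
        norm_num at h2 ⊢
        norm_num at h
        linarith
      have h2 := prod_le_exp ((t \ s).erase 13) fun p hp => hσ p (Finset.mem_of_mem_erase hp)
      have h3 : Real.exp (∑ q ∈ (t \ s).erase 13, (1 : ℝ) / ((q : ℝ) - 1)) ≤ 60 / 59 := by
        refine (Real.exp_le_exp.2 h1).trans ?_
        refine (n23_exp (by norm_num)).trans ?_
        norm_num
      rw [← Finset.mul_prod_erase _ _ c13] at hB
      have h4 : (1 + 1 / (((13 : ℕ) : ℝ) - 1)) * ∏ q ∈ (t \ s).erase 13,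
          (1 + 1 / ((q : ℝ) - 1)) ≤ 13 / 12 * (60 / 59) := by
        have h5 : (1 + 1 / (((13 : ℕ) : ℝ) - 1)) = 13 / 12 := by norm_num
        rw [h5]
        exact mul_le_mul_of_nonneg_left (h2.trans h3) (by norm_num)
      have h6 := hB.trans h4
      norm_num at h6 ⊢
      linarith
    have T0 := S0 16 hr16
    have T3 : (BB u - 1) * AA m q0 1 ≤ 6 / 59 * 4.6594 :=
      (mul_le_mul_of_nonneg_right hB1 N1).trans (mul_le_mul_of_nonneg_left A1 (by norm_num))
    rw [hsum]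
    norm_num at T3 A16 ⊢
    linarith
  · -- all primes in `σ` are at least `17`
    have h17 : ∀ q ∈ t \ s, 17 ≤ q := by
      intro q hq
      have h1 := h11 q hq
      by_contra h2
      have h3 : q = 11 ∨ q = 12 ∨ q = 13 ∨ q = 14 ∨ q = 15 ∨ q = 16 := by omega
      rcases h3 with rfl | rfl | rfl | rfl | rfl | rfl
      · exact c11 hq
      · exact absurd (hσ 12 hq) (by norm_num)
      · exact c13 hq
      · exact absurd (hσ 14 hq) (by norm_num)
      · exact absurd (hσ 15 hq) (by norm_num)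
      · exact absurd (hσ 16 hq) (by norm_num)
    have hr18 : ∀ i ∈ U0, 18 ≤ W.r i := by
      intro i hi
      obtain ⟨p, hp, hpr⟩ := W.hr i (hm0 i hi).1
      exact n23_18 (hr23 i hi) ((h17 p hp).trans hpr)
    have hB1 : BB u - 1 ≤ 1 / 9 := by
      have h2 := prod_le_exp (t \ s) hσ
      have h3 : Real.exp (∑ q ∈ t \ s, (1 : ℝ) / ((q : ℝ) - 1)) ≤ 10 / 9 := by
        refine (Real.exp_le_exp.2 h).trans ?_
        refine (n23_exp (by norm_num)).trans ?_
        norm_num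
      have h4 := (hB.trans h2).trans h3
      linarith
    have T0 := S0 18 hr18
    have T3 : (BB u - 1) * AA m q0 1 ≤ 1 / 9 * 4.6594 :=
      (mul_le_mul_of_nonneg_right hB1 N1).trans (mul_le_mul_of_nonneg_left A1 (by norm_num))
    rw [hsum]
    norm_num at T3 A18 ⊢
    linarith

end Pool.Agent.HL
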