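import Pool.Agent.HL.Rankin
import Pool.Agent.HL.Beta
import Pool.Agent.HL.Split

set_option autoImplicit false

/-!
# Project HL, HL-7: the general numerical inequality
-/

namespace Pool.Agent.HL

theorem num_gen {ι : Type} (s t : Finset ℕ) (n : ℕ) (ht : ∀ p ∈ t, p.Prime) (hst : s ⊆ t)
    (hs : s.Nonempty) (h : ∑ q ∈ t \ s, (1 : ℝ) / ((q : ℝ) - 1) ≤ 1 / (4 * KK s ^ 2)) (hn : n ≠ 0)
    (hn' : n.primeFactors ⊆ t) (W : Wt ι s t n) : ∑ i ∈ W.U, W.w i < 1 := by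
  have hts : ∀ p ∈ t \ s, p.Prime := fun p hp => ht p (Finset.mem_sdiff.1 hp).1
  have hsp : ∀ p ∈ s, p.Prime := fun p hp => ht p (hst hp)
  have hK := one_lt_KK s hs hsp
  obtain ⟨m, u, hmu, hcop, hms, hus, hdm⟩ := exists_split s t n hn ht hst hn'
  have hm : m ≠ 0 := by rintro rfl; simp at hmu; exact hn hmu
  have hu : u ≠ 0 := by rintro rfl; simp at hmu; exact hn hmu
  have hqr : ∀ i ∈ W.U, W.q i * W.r i ≠ 0 := fun i hi h0 => by
    have := W.hd i hi
    rw [h0, zero_dvd_iff] at this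
    exact hn this
  have hq0 : W.q W.i0 ≠ 0 := fun h0 => hqr _ W.hi0 (by rw [h0, zero_mul])
  have hne : (t \ s).Nonempty := by
    obtain ⟨p, hp, _⟩ := W.hr _ W.hi0
    exact ⟨p, hp⟩
  obtain ⟨y, hyd⟩ : ∃ y, y = (t \ s).min' hne := ⟨_, rfl⟩
  have hy1 : y ∈ t \ s := hyd ▸ Finset.min'_mem _ _
  have hyr : ∀ i ∈ W.U, y ≤ W.r i := fun i hi => by
    obtain ⟨p, hp, hpr⟩ := W.hr i hi
    exact (hyd ▸ Finset.min'_le _ _ hp : y ≤ p).trans hpr
  have hy2 : 2 ≤ y := (hts y hy1).two_le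
  have hy2' : (2 : ℝ) ≤ y := by exact_mod_cast hy2
  obtain ⟨δ, hδd⟩ : ∃ δ : ℝ, δ = ∑ q ∈ t \ s, (1 : ℝ) / ((q : ℝ) - 1) := ⟨_, rfl⟩
  rw [← hδd] at h
  have hnn : ∀ q ∈ t \ s, (0 : ℝ) ≤ 1 / ((q : ℝ) - 1) := fun q hq => by
    have : (2 : ℝ) ≤ q := by exact_mod_cast (hts q hq).two_le
    exact div_nonneg zero_le_one (by linarith)
  have hδy : 1 / ((y : ℝ) - 1) ≤ δ := by
    rw [hδd]
    exact Finset.single_le_sum (f := fun q : ℕ => (1 : ℝ) / ((q : ℝ) - 1)) hnn hy1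
  have hδ0 : 0 < δ := lt_of_lt_of_le (by apply div_pos one_pos; linarith) hδy
  obtain ⟨K, hKd⟩ : ∃ K, K = KK s := ⟨_, rfl⟩
  rw [← hKd] at h hK
  have hK0 : 0 < K := by linarith
  have hδK : δ * (4 * K ^ 2) ≤ 1 := by
    rwa [le_div_iff₀ (by positivity)] at h
  have hK2 : 1 < K ^ 2 := by nlinarith
  have hδ4 : δ ≤ 1 / 4 := by nlinarith
  -- `y ≥ 4 K²`
  have hyK : 4 * K ^ 2 ≤ y := by
    have h1 : 1 ≤ δ * ((y : ℝ) - 1) := by
      rw [div_le_iff₀ (by linarith)] at hδy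
      exact hδy
    have h2 : 4 * K ^ 2 * δ ≤ ((y : ℝ) - 1) * δ := by nlinarith
    have := le_of_mul_le_mul_right h2 hδ0
    linarith
  have hsq : 2 * K ≤ √(y : ℝ) := by
    apply Real.le_sqrt_of_sq_le
    nlinarith
  have hKm : KK m.primeFactors ≤ K := hKd ▸ KK_mono _ _ hms hsp
  classical
  -- the two parts
  rw [← Finset.sum_filter_add_sum_filter_not W.U (fun i => W.q i * W.r i ∣ m)]
  have hA : ∑ i ∈ W.U.filter (fun i => W.q i * W.r i ∣ m), W.w i ≤ 1 / 2 := by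
    have h1 := split0 m (W.q W.i0) y hm (W.U.filter (fun i => W.q i * W.r i ∣ m)) W.q W.r W.w
      (fun i hi j hj => W.hinj i (Finset.mem_filter.1 hi).1 j (Finset.mem_filter.1 hj).1)
      (fun i hi => (Finset.mem_filter.1 hi).2)
      (fun i hi => W.hw i (Finset.mem_filter.1 hi).1)
      (fun i hi => by
        rw [mul_comm]
        exact Nat.mul_le_mul (W.hmin i (Finset.mem_filter.1 hi).1)
          (hyr i (Finset.mem_filter.1 hi).1))
    have h2 := AA_le m (W.q W.i0) y hm hq0 (by omega)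
    have h3 : KK m.primeFactors / √(y : ℝ) ≤ 1 / 2 := by
      rw [div_le_iff₀ (by linarith)]
      linarith
    linarith
  have hB : ∑ i ∈ W.U.filter (fun i => ¬ W.q i * W.r i ∣ m), W.w i < 1 / 2 := by
    have h1 := split1 m u (W.q W.i0) 1 hm hu hcop (W.U.filter (fun i => ¬ W.q i * W.r i ∣ m))
      W.q W.r W.w
      (fun i hi j hj => W.hinj i (Finset.mem_filter.1 hi).1 j (Finset.mem_filter.1 hj).1)
      (fun i hi => hdm _ ((dvd_mul_right _ _).trans (W.hd i (Finset.mem_filter.1 hi).1))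
        (W.hq i (Finset.mem_filter.1 hi).1))
      (fun i hi => hmu ▸ W.hd i (Finset.mem_filter.1 hi).1)
      (fun i hi => (Finset.mem_filter.1 hi).2)
      (fun i hi => W.hw i (Finset.mem_filter.1 hi).1)
      (fun i hi => by
        have hi' := (Finset.mem_filter.1 hi).1
        have hqm : W.q i ∣ m := hdm _ ((dvd_mul_right _ _).trans (W.hd i hi')) (W.hq i hi')
        rw [one_mul]
        exact (W.hmin i hi').trans (Nat.le_of_dvd (Nat.gcd_pos_of_pos_right _ (Nat.pos_of_ne_zero hm))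
          (Nat.dvd_gcd (dvd_mul_right _ _) hqm)))
    have h2 := AA_le m (W.q W.i0) 1 hm hq0 one_pos
    rw [Nat.cast_one, Real.sqrt_one, div_one] at h2
    have h3 := (BB_le u hu (t \ s) hts hus).trans (prod_le_exp (t \ s) hts)
    rw [← hδd] at h3
    have h4 : 0 ≤ AA m (W.q W.i0) 1 := by
      unfold AA
      exact Finset.sum_nonneg fun a _ => by positivity
    have h5 : Real.exp δ - 1 ≤ 4 / 3 * δ := by
      have h6 : 1 - δ ≤ Real.exp (-δ) := by
        have := Real.add_one_le_exp (-δ); linarith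
      have h7 : Real.exp δ * Real.exp (-δ) = 1 := by rw [← Real.exp_add]; simp
      have h8 : 0 < Real.exp δ := Real.exp_pos _
      have h9 : Real.exp δ * (1 - δ) ≤ 1 := by nlinarith
      nlinarith
    have h6 : 0 ≤ Real.exp δ - 1 := by
      have := Real.add_one_le_exp δ; linarith
    have h7 : (BB u - 1) * AA m (W.q W.i0) 1 ≤ (Real.exp δ - 1) * AA m (W.q W.i0) 1 :=
      mul_le_mul_of_nonneg_right (by linarith) h4
    have h8 : (Real.exp δ - 1) * AA m (W.q W.i0) 1 ≤ (Real.exp δ - 1) * K :=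
      mul_le_mul_of_nonneg_left (h2.trans hKm) h6
    have h9 : (Real.exp δ - 1) * K ≤ 4 / 3 * δ * K := mul_le_mul_of_nonneg_right h5 hK0.le
    have h10 : 4 / 3 * δ * K < 1 / 2 := by
      have h11 : δ * K * 4 ≤ 1 := by nlinarith [mul_pos hδ0 hK0]
      nlinarith
    linarith
  linarith

end Pool.Agent.HL
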