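import Pool.Agent.HL.Defs

/-!
# HL-13: passing to a quotient
-/

set_option autoImplicit false

namespace Pool.Agent.HL

theorem hs_quot {G : Type} [Group G] [Finite G] (R : Subgroup G) [R.Normal] (h : HS (G ⧸ R))
    {ι : Type} [Fintype ι] (H : ι → Subgroup G) (a : ι → G) (hR : ∀ i, R ≤ H i)
    (hH : ∀ i, H i ≠ ⊤) (hp : ∀ g, ∃! i, (a i)⁻¹ * g ∈ H i) :
    ∃ i j, i ≠ j ∧ (H i).index = (H j).index := by
  have hc : ∀ i, Subgroup.comap (QuotientGroup.mk' R)
      (Subgroup.map (QuotientGroup.mk' R) (H i)) = H i := fun i => by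
    rw [QuotientGroup.comap_map_mk']
    exact sup_eq_right.mpr (hR i)
  have hm : ∀ (i : ι) (g : G), (QuotientGroup.mk' R) g ∈
      Subgroup.map (QuotientGroup.mk' R) (H i) ↔ g ∈ H i := fun i g => by
    rw [← Subgroup.mem_comap, hc i]
  have hi : ∀ i, (Subgroup.map (QuotientGroup.mk' R) (H i)).index = (H i).index := fun i => by
    rw [← Subgroup.index_comap_of_surjective _ (QuotientGroup.mk'_surjective R), hc i]
  obtain ⟨i, j, hij, e⟩ := h ι (fun i => Subgroup.map (QuotientGroup.mk' R) (H i))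
    (fun i => QuotientGroup.mk' R (a i)) (fun i hi2 => hH i (by
      rw [← hc i, hi2, Subgroup.comap_top])) (fun x => by
      obtain ⟨g, rfl⟩ := QuotientGroup.mk'_surjective R x
      obtain ⟨i, h1, h2⟩ := hp g
      refine ⟨i, ?_, fun j hj => h2 j ?_⟩
      · show (QuotientGroup.mk' R (a i))⁻¹ * QuotientGroup.mk' R g ∈ _
        rw [← map_inv, ← map_mul, hm]
        exact h1
      · have hj2 : (QuotientGroup.mk' R (a j))⁻¹ * QuotientGroup.mk' R g ∈
          Subgroup.map (QuotientGroup.mk' R) (H j) := hj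
        rw [← map_inv, ← map_mul, hm] at hj2
        exact hj2)
  exact ⟨i, j, hij, by rw [← hi i, ← hi j]; exact e⟩

end Pool.Agent.HL
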