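import Pool.Agent.HL.Defs

set_option autoImplicit false

namespace Pool.Agent.HL

theorem exists_R (G : Type) [Group G] [Finite G] (σ : Finset ℕ) (hσ : ∀ p ∈ σ, p.Prime) :
    ∃ R : Subgroup G, R.Normal ∧ (∀ p ∈ σ, ¬ p ∣ R.index) ∧
      ∀ H : Subgroup G, (∀ p ∈ σ, H.relIndex R < p) → R ≤ H := by
  classical
  let S : Set G := {g : G | ∃ p ∈ σ, ∃ k : ℕ, g ^ (p ^ k) = 1}
  have hconj : ∀ s ∈ S, ∀ g : G, g * s * g⁻¹ ∈ S := by
    rintro s ⟨p, hp, k, hk⟩ g
    refine ⟨p, hp, k, ?_⟩
    rw [conj_pow, hk, mul_one, mul_inv_cancel]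
  refine ⟨Subgroup.closure S, ⟨?_⟩, ?_, ?_⟩
  · intro n hn g
    induction hn using Subgroup.closure_induction with
    | mem x hx => exact Subgroup.subset_closure (hconj x hx g)
    | one => rw [mul_one, mul_inv_cancel]; exact Subgroup.one_mem _
    | mul x y _ _ hx hy =>
      have : g * (x * y) * g⁻¹ = (g * x * g⁻¹) * (g * y * g⁻¹) := by group
      rw [this]; exact Subgroup.mul_mem _ hx hy
    | inv x _ hx =>
      have : g * x⁻¹ * g⁻¹ = (g * x * g⁻¹)⁻¹ := by group
      rw [this]; exact Subgroup.inv_mem _ hx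
  · intro p hp hdvd
    have hP : p.Prime := hσ p hp
    have : Fact p.Prime := ⟨hP⟩
    have hN : (Subgroup.closure S).Normal := by
      refine ⟨?_⟩
      intro n hn g
      induction hn using Subgroup.closure_induction with
      | mem x hx => exact Subgroup.subset_closure (hconj x hx g)
      | one => rw [mul_one, mul_inv_cancel]; exact Subgroup.one_mem _
      | mul x y _ _ hx hy =>
        have : g * (x * y) * g⁻¹ = (g * x * g⁻¹) * (g * y * g⁻¹) := by group
        rw [this]; exact Subgroup.mul_mem _ hx hy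
      | inv x _ hx =>
        have : g * x⁻¹ * g⁻¹ = (g * x * g⁻¹)⁻¹ := by group
        rw [this]; exact Subgroup.inv_mem _ hx
    have hdvd' : p ∣ Nat.card (G ⧸ Subgroup.closure S) := hdvd
    obtain ⟨x, hx⟩ := exists_prime_orderOf_dvd_card' p hdvd'
    obtain ⟨g, rfl⟩ := QuotientGroup.mk_surjective x
    have hn0 : orderOf g ≠ 0 := (orderOf_pos g).ne'
    obtain ⟨k, m, hm, hkm⟩ := Nat.exists_eq_pow_mul_and_not_dvd hn0 p hP.ne_one
    have hmem : g ^ m ∈ Subgroup.closure S := by
      apply Subgroup.subset_closure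
      refine ⟨p, hp, k, ?_⟩
      rw [← pow_mul, mul_comm m, ← hkm]
      exact pow_orderOf_eq_one g
    have h1 : ((g : G ⧸ Subgroup.closure S)) ^ m = 1 := by
      rw [← QuotientGroup.mk_pow]
      exact (QuotientGroup.eq_one_iff _).2 hmem
    have h2 : orderOf ((g : G ⧸ Subgroup.closure S)) ∣ m := orderOf_dvd_of_pow_eq_one h1
    rw [hx] at h2
    exact hm h2
  · intro H hH
    rw [Subgroup.closure_le]
    rintro s ⟨p, hp, k, hk⟩
    have hP : p.Prime := hσ p hp
    have hsR : s ∈ Subgroup.closure S := Subgroup.subset_closure ⟨p, hp, k, hk⟩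
    have hne : H.relIndex (Subgroup.closure S) ≠ 0 := by
      rw [Subgroup.relIndex]
      exact Subgroup.index_ne_zero_of_finite
    obtain ⟨n, hn0, hnle, hmem⟩ := Subgroup.exists_pow_mem_of_relIndex_ne_zero hne hsR
    have hnp : n < p := lt_of_le_of_lt hnle (hH p hp)
    have hcop : n.Coprime p := by
      rw [Nat.coprime_comm]
      exact (Nat.Prime.coprime_iff_not_dvd hP).2 (fun h => absurd (Nat.le_of_dvd hn0 h) (not_le.2 hnp))
    have hord : orderOf s ∣ p ^ k := orderOf_dvd_of_pow_eq_one hk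
    have hcop' : n.Coprime (orderOf s) := Nat.Coprime.coprime_dvd_right hord (hcop.pow_right k)
    obtain ⟨m, hm⟩ := exists_pow_eq_self_of_coprime hcop'
    have : (s ^ n) ^ m ∈ H := Subgroup.pow_mem _ (Subgroup.mem_inf.1 hmem).1 m
    rw [hm] at this
    exact this

end Pool.Agent.HL
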