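import Pool.Agent.HL.Defs

/-!
# HL-4: the Rankin bound for the sum of `gcd (q, a) / a`
-/

set_option autoImplicit false

namespace Pool.Agent.HL

private theorem sqrt_gt (p : ℕ) (hp : p.Prime) : 1 < √(p : ℝ) := by
  rw [Real.lt_sqrt (by norm_num)]
  have : (1 : ℝ) < p := by exact_mod_cast hp.one_lt
  linarith

private theorem one_lt_factor (p : ℕ) (hp : p.Prime) : 1 < (√(p : ℝ) + 1) / (√(p : ℝ) - 1) := by
  have h := sqrt_gt p hp
  rw [lt_div_iff₀ (by linarith)]
  linarith

private theorem one_le_prod (s : Finset ℕ) (hp : ∀ p ∈ s, p.Prime) : 1 ≤ KK s :=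
  Finset.prod_induction _ (fun x : ℝ => 1 ≤ x)
    (fun _ _ ha hb => one_le_mul_of_one_le_of_one_le ha hb) le_rfl
    fun q hq => (one_lt_factor q (hp q hq)).le

theorem KK_mono (s t : Finset ℕ) (hst : s ⊆ t) (ht : ∀ p ∈ t, p.Prime) : KK s ≤ KK t := by
  have h1 := one_le_prod (t \ s) fun p hp => ht p (Finset.mem_sdiff.1 hp).1
  have h2 := one_le_prod s fun p hp => ht p (hst hp)
  have h3 : KK t = KK (t \ s) * KK s := by
    unfold KK
    rw [Finset.prod_sdiff hst]
  rw [h3]
  nlinarith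

theorem one_lt_KK (s : Finset ℕ) (hs : s.Nonempty) (hp : ∀ p ∈ s, p.Prime) : 1 < KK s := by
  obtain ⟨p, hps⟩ := hs
  have h1 := KK_mono {p} s (Finset.singleton_subset_iff.2 hps) hp
  have h2 := one_lt_factor p (hp p hps)
  unfold KK at h1
  rw [Finset.prod_singleton] at h1
  exact h2.trans_le h1

/-- the summand of the Rankin sum -/
private noncomputable def tt (q a : ℕ) : ℝ :=
  ((Nat.gcd q a : ℕ) : ℝ) / √((q : ℝ) * (a : ℝ))

private theorem tt_nonneg (q a : ℕ) : 0 ≤ tt q a := by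
  unfold tt
  positivity

private theorem tt_mul (p v i q b : ℕ) (hp : p.Prime) (hq : ¬ p ∣ q) (hb : ¬ p ∣ b) :
    tt (p ^ v * q) (p ^ i * b) = tt (p ^ v) (p ^ i) * tt q b := by
  have c1 : (p ^ i).Coprime b := Nat.Coprime.pow_left _ ((Nat.Prime.coprime_iff_not_dvd hp).2 hb)
  have c2 : (p ^ v).Coprime b := Nat.Coprime.pow_left _ ((Nat.Prime.coprime_iff_not_dvd hp).2 hb)
  have c3 : q.Coprime (p ^ i) :=
    (Nat.Coprime.pow_left _ ((Nat.Prime.coprime_iff_not_dvd hp).2 hq)).symm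
  have hg : Nat.gcd (p ^ v * q) (p ^ i * b) = Nat.gcd (p ^ v) (p ^ i) * Nat.gcd q b := by
    rw [Nat.Coprime.gcd_mul _ c1, Nat.Coprime.gcd_mul_right_cancel _ c3,
      Nat.Coprime.gcd_mul_left_cancel _ c2]
  unfold tt
  rw [hg]
  push_cast
  rw [show (p : ℝ) ^ v * (q : ℝ) * ((p : ℝ) ^ i * (b : ℝ)) =
    ((p : ℝ) ^ v * (p : ℝ) ^ i) * ((q : ℝ) * (b : ℝ)) by ring,
    Real.sqrt_mul (by positivity), mul_div_mul_comm]

private theorem sqrt_pow' (p k : ℕ) : √((p : ℝ) ^ k) = √(p : ℝ) ^ k := by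
  rw [← Real.sqrt_sq (show 0 ≤ √(p : ℝ) ^ k by positivity), ← pow_mul, mul_comm k 2, pow_mul,
    Real.sq_sqrt (Nat.cast_nonneg p)]

private theorem tt_pow (p v i : ℕ) (hp : p.Prime) :
    tt (p ^ v) (p ^ i) = (√(p : ℝ))⁻¹ ^ (Nat.dist v i) := by
  have hs : √(p : ℝ) ≠ 0 := by
    have := sqrt_gt p hp
    linarith
  unfold tt
  push_cast
  rw [← pow_add, sqrt_pow']
  have hpp : (p : ℝ) = √(p : ℝ) ^ 2 := (Real.sq_sqrt (Nat.cast_nonneg p)).symm
  rcases le_total v i with h | h
  · obtain ⟨d, rfl⟩ := Nat.exists_eq_add_of_le h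
    rw [Nat.gcd_eq_left (pow_dvd_pow p h), Nat.dist_eq_sub_of_le h, Nat.add_sub_cancel_left]
    push_cast
    nth_rw 1 [hpp]
    rw [inv_pow, ← pow_mul, div_eq_iff (pow_ne_zero _ hs), ← div_eq_inv_mul, eq_div_iff (pow_ne_zero _ hs),
      ← pow_add]
    congr 1
    ring
  · obtain ⟨d, rfl⟩ := Nat.exists_eq_add_of_le h
    rw [Nat.gcd_eq_right (pow_dvd_pow p h), Nat.dist_eq_sub_of_le_right h,
      Nat.add_sub_cancel_left]
    push_cast
    nth_rw 1 [hpp]
    rw [inv_pow, ← pow_mul, div_eq_iff (pow_ne_zero _ hs), ← div_eq_inv_mul, eq_div_iff (pow_ne_zero _ hs),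
      ← pow_add]
    congr 1
    ring

private theorem geom (r : ℝ) (h0 : 0 < r) (v N : ℕ) :
    (∑ i ∈ Finset.range N, r ^ (Nat.dist v i)) * (1 - r) ≤
      if N ≤ v then r ^ (v + 1 - N) else 1 + r - r ^ (N - v) := by
  induction N with
  | zero =>
    simp only [Finset.range_zero, Finset.sum_empty, zero_mul, Nat.zero_le, if_true]
    positivity
  | succ N ih =>
    rw [Finset.sum_range_succ, add_mul]
    rcases lt_trichotomy N v with h | h | h
    · rw [if_pos h.le] at ih
      rw [if_pos (by omega), Nat.dist_eq_sub_of_le_right h.le,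
        show v + 1 - (N + 1) = v - N by omega]
      rw [show v + 1 - N = (v - N) + 1 by omega, pow_succ] at ih
      linarith
    · subst h
      rw [if_pos le_rfl, show N + 1 - N = 1 by omega, pow_one] at ih
      rw [if_neg (by omega), Nat.dist_self, pow_zero, show N + 1 - N = 1 by omega, pow_one]
      linarith
    · rw [if_neg (by omega)] at ih
      rw [if_neg (by omega), Nat.dist_eq_sub_of_le h.le, show N + 1 - v = (N - v) + 1 by omega,
        pow_succ]
      linarith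

private theorem geom' (p v N : ℕ) (hp : p.Prime) :
    ∑ i ∈ Finset.range N, tt (p ^ v) (p ^ i) ≤ (√(p : ℝ) + 1) / (√(p : ℝ) - 1) := by
  have hs := sqrt_gt p hp
  have h0 : 0 < (√(p : ℝ))⁻¹ := by positivity
  have h1 : (√(p : ℝ))⁻¹ < 1 := inv_lt_one_of_one_lt₀ hs
  have h2 := geom _ h0 v N
  have h3 : (if N ≤ v then (√(p : ℝ))⁻¹ ^ (v + 1 - N) else
      1 + (√(p : ℝ))⁻¹ - (√(p : ℝ))⁻¹ ^ (N - v)) ≤ 1 + (√(p : ℝ))⁻¹ := by
    split_ifs
    · have := pow_le_one₀ (n := v + 1 - N) h0.le h1.le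
      linarith
    · have : 0 < (√(p : ℝ))⁻¹ ^ (N - v) := by positivity
      linarith
  have h4 : ∑ i ∈ Finset.range N, tt (p ^ v) (p ^ i) =
      ∑ i ∈ Finset.range N, (√(p : ℝ))⁻¹ ^ (Nat.dist v i) :=
    Finset.sum_congr rfl fun i _ => tt_pow p v i hp
  have h5 : (√(p : ℝ) + 1) / (√(p : ℝ) - 1) = (1 + (√(p : ℝ))⁻¹) / (1 - (√(p : ℝ))⁻¹) := by
    have e1 : √(p : ℝ) - 1 ≠ 0 := by linarith
    have e2 : 1 - (√(p : ℝ))⁻¹ ≠ 0 := by linarith
    have e3 : √(p : ℝ) ≠ 0 := by linarith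
    rw [div_eq_div_iff e1 e2]
    field_simp
  rw [h4, h5, le_div_iff₀ (by linarith)]
  linarith

private theorem rankin (m : ℕ) : m ≠ 0 → ∀ q : ℕ, q ≠ 0 →
    ∑ a ∈ m.divisors, tt q a ≤ KK m.primeFactors := by
  induction m using Nat.recOnPrimePow with
  | zero => intro h; exact absurd rfl h
  | one =>
    intro _ q hq
    rw [Nat.divisors_one, Finset.sum_singleton, Nat.primeFactors_one]
    unfold tt KK
    rw [Nat.gcd_one_right, Finset.prod_empty]
    have hq' : (1 : ℝ) ≤ q := by exact_mod_cast Nat.one_le_iff_ne_zero.2 hq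
    rw [Nat.cast_one, mul_one]
    refine (div_le_one (by positivity)).2 ?_
    rw [Real.le_sqrt (by norm_num) (by positivity)]
    linarith
  | prime_pow_mul a p n hp hpa hn ih =>
    intro hm q hq
    have ha : a ≠ 0 := by
      rintro rfl
      exact hm (mul_zero _)
    obtain ⟨v, q', hq', rfl⟩ := Nat.exists_eq_pow_mul_and_not_dvd hq p hp.ne_one
    have hq0 : q' ≠ 0 := by
      rintro rfl
      exact hq (mul_zero _)
    have hnb : ∀ b ∈ a.divisors, ¬ p ∣ b := fun b hb h =>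
      hpa (h.trans (Nat.dvd_of_mem_divisors hb))
    have hsub : (p ^ n * a).divisors ⊆
        (Finset.range (n + 1) ×ˢ a.divisors).image (fun x => p ^ x.1 * x.2) := by
      intro d hd
      obtain ⟨x, y, hx, hy, rfl⟩ := (Nat.dvd_mul).1 (Nat.dvd_of_mem_divisors hd)
      obtain ⟨i, hi, rfl⟩ := (Nat.dvd_prime_pow hp).1 hx
      exact Finset.mem_image.2 ⟨(i, y), Finset.mem_product.2
        ⟨Finset.mem_range.2 (by simpa using Nat.lt_succ_of_le hi), Nat.mem_divisors.2 ⟨hy, ha⟩⟩, rfl⟩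
    have hKK : KK (p ^ n * a).primeFactors =
        (√(p : ℝ) + 1) / (√(p : ℝ) - 1) * KK a.primeFactors := by
      have hc : (p ^ n).Coprime a :=
        Nat.Coprime.pow_left _ ((Nat.Prime.coprime_iff_not_dvd hp).2 hpa)
      rw [hc.primeFactors_mul, Nat.primeFactors_prime_pow hn.ne' hp]
      unfold KK
      rw [Finset.prod_union (Finset.disjoint_singleton_left.2
        fun h => hpa (Nat.dvd_of_mem_primeFactors h)), Finset.prod_singleton]
    calc ∑ d ∈ (p ^ n * a).divisors, tt (p ^ v * q') d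
        ≤ ∑ d ∈ (Finset.range (n + 1) ×ˢ a.divisors).image (fun x => p ^ x.1 * x.2),
          tt (p ^ v * q') d :=
          Finset.sum_le_sum_of_subset_of_nonneg hsub fun d _ _ => tt_nonneg _ d
      _ ≤ ∑ x ∈ Finset.range (n + 1) ×ˢ a.divisors, tt (p ^ v * q') (p ^ x.1 * x.2) := by
          rw [Finset.sum_image]
          rintro ⟨i, b⟩ hb ⟨j, c⟩ hc h
          have hb' := hnb b (Finset.mem_product.1 hb).2
          have hc' := hnb c (Finset.mem_product.1 hc).2
          simp only at h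
          have hb0 : b ≠ 0 := fun h0 => hb' (h0 ▸ dvd_zero p)
          have hc0 : c ≠ 0 := fun h0 => hc' (h0 ▸ dvd_zero p)
          have h1 : (p ^ i * b).factorization p = (p ^ j * c).factorization p := by rw [h]
          rw [Nat.factorization_mul (pow_ne_zero _ hp.ne_zero) hb0,
            Nat.factorization_mul (pow_ne_zero _ hp.ne_zero) hc0, Finsupp.add_apply,
            Finsupp.add_apply, Nat.factorization_eq_zero_of_not_dvd hb',
            Nat.factorization_eq_zero_of_not_dvd hc', hp.factorization_pow, hp.factorization_pow,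
            Finsupp.single_eq_same, Finsupp.single_eq_same] at h1
          have h2 : i = j := by omega
          subst h2
          have h3 := Nat.eq_of_mul_eq_mul_left (pow_pos hp.pos i) h
          rw [h3]
      _ = (∑ i ∈ Finset.range (n + 1), tt (p ^ v) (p ^ i)) * ∑ b ∈ a.divisors, tt q' b := by
          rw [Finset.sum_product, Finset.sum_mul_sum]
          refine Finset.sum_congr rfl fun i _ => Finset.sum_congr rfl fun b hb => ?_
          exact tt_mul p v i q' b hp hq' (hnb b hb)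
      _ ≤ (√(p : ℝ) + 1) / (√(p : ℝ) - 1) * KK a.primeFactors := by
          refine mul_le_mul (geom' p v (n + 1) hp) (ih ha q' hq0)
            (Finset.sum_nonneg fun b _ => tt_nonneg q' b) ?_
          exact (one_lt_factor p hp).le.trans' zero_le_one
      _ = KK (p ^ n * a).primeFactors := hKK.symm

theorem AA_le (m q Y : ℕ) (hm : m ≠ 0) (hq : q ≠ 0) (hY : 0 < Y) :
    AA m q Y ≤ KK m.primeFactors / √(Y : ℝ) := by
  have hY' : 0 < (Y : ℝ) := by exact_mod_cast hY
  have hq' : 0 < (q : ℝ) := by exact_mod_cast Nat.pos_of_ne_zero hq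
  have h1 : AA m q Y ≤ ∑ a ∈ m.divisors with Y * q ≤ a, tt q a / √(Y : ℝ) := by
    unfold AA
    refine Finset.sum_le_sum fun a ha => ?_
    obtain ⟨ha1, ha2⟩ := Finset.mem_filter.1 ha
    have ha0 : 0 < (a : ℝ) := by exact_mod_cast Nat.pos_of_mem_divisors ha1
    unfold tt
    rw [div_div, ← Real.sqrt_mul (by positivity)]
    refine div_le_div_of_nonneg_left (Nat.cast_nonneg _) (by positivity) ?_
    rw [Real.sqrt_le_left ha0.le]
    have h2 : (Y : ℝ) * q ≤ a := by exact_mod_cast ha2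
    nlinarith
  refine h1.trans ?_
  rw [← Finset.sum_div]
  refine div_le_div_of_nonneg_right ?_ (Real.sqrt_nonneg _)
  refine (Finset.sum_le_sum_of_subset_of_nonneg (Finset.filter_subset _ _)
    fun a _ _ => tt_nonneg q a).trans (rankin m hm q hq)

end Pool.Agent.HL
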