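import Pool.Agent.HL.Copr

/-!
# Project HL, row HL-12: the weights (averaging over cosets)
-/

set_option autoImplicit false

namespace Pool.Agent.HL

open Subgroup

/-- `x` lies in the coset `a H R`. -/
def Cs {G : Type} [Group G] (R H : Subgroup G) (a x : G) : Prop := ∃ ρ ∈ R, a⁻¹ * (x * ρ) ∈ H

theorem index_mul {G : Type} [Group G] [Finite G] (K R : Subgroup G) [R.Normal] :
    K.index = (K ⊔ R).index * K.relIndex R := by
  have h1 : Nat.card (K ⊓ R : Subgroup G) * K.relIndex R = Nat.card R := by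
    have := card_mul_index (K.subgroupOf R)
    rw [← this]
    congr 1
    exact (Nat.card_congr (subgroupOfEquivOfLe (inf_le_right : K ⊓ R ≤ R)).toEquiv).symm.trans
      (by rw [inf_subgroupOf_right])
  have h2 : Nat.card (K ⊓ R : Subgroup G) * R.relIndex K = Nat.card K := by
    have := card_mul_index (R.subgroupOf K)
    rw [← this]
    congr 1
    exact (Nat.card_congr (subgroupOfEquivOfLe (inf_le_left : K ⊓ R ≤ K)).toEquiv).symm.trans
      (by rw [inf_subgroupOf_left])
  have h3 : Nat.card R * R.relIndex (K ⊔ R) = Nat.card (K ⊔ R : Subgroup G) := by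
    have := card_mul_index (R.subgroupOf (K ⊔ R))
    rw [← this]
    congr 1
    exact (Nat.card_congr (subgroupOfEquivOfLe (le_sup_right : R ≤ K ⊔ R)).toEquiv).symm
  rw [relIndex_sup_right] at h3
  have h4 := card_mul_index K
  have h5 := card_mul_index (K ⊔ R)
  have hpos : 0 < Nat.card (K ⊓ R : Subgroup G) := Nat.card_pos
  have hposK : 0 < Nat.card K := Nat.card_pos
  have h6 : Nat.card (K ⊔ R : Subgroup G) = Nat.card K * K.relIndex R := by
    apply Nat.eq_of_mul_eq_mul_left hpos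
    rw [← h3, ← h2, ← h1]
    ring
  apply Nat.eq_of_mul_eq_mul_left hposK
  rw [h4, ← h5, h6]
  ring

private lemma cs_iff {G : Type} [Group G] (R H : Subgroup G) [R.Normal] (a x : G) :
    Cs R H a x ↔ a⁻¹ * x ∈ H ⊔ R := by
  constructor
  · rintro ⟨ρ, hρ, h⟩
    have h1 : a⁻¹ * x = (a⁻¹ * (x * ρ)) * ρ⁻¹ := by group
    rw [h1]
    exact mul_mem (mem_sup_left h) (mem_sup_right (inv_mem hρ))
  · intro h
    rw [mem_sup_of_normal_right] at h
    obtain ⟨y, hy, z, hz, hyz⟩ := h
    refine ⟨z⁻¹, inv_mem hz, ?_⟩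
    have h1 : a⁻¹ * (x * z⁻¹) = (a⁻¹ * x) * z⁻¹ := by group
    rw [h1, ← hyz, mul_inv_cancel_right]
    exact hy

private lemma inter_le_inf {Q : Type} [Group Q] [Finite Q] (L L' : Subgroup Q) (a a' : Q) :
    Nat.card {x : Q // a⁻¹ * x ∈ L ∧ a'⁻¹ * x ∈ L'} ≤ Nat.card (L ⊓ L' : Subgroup Q) := by
  rcases isEmpty_or_nonempty {x : Q // a⁻¹ * x ∈ L ∧ a'⁻¹ * x ∈ L'} with h | ⟨⟨x0, hx0, hx0'⟩⟩
  · rw [Nat.card_of_isEmpty]; exact Nat.zero_le _
  · apply Nat.card_le_card_of_injective
      (fun x : {x : Q // a⁻¹ * x ∈ L ∧ a'⁻¹ * x ∈ L'} =>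
        (⟨x0⁻¹ * x.1, by
          rw [Subgroup.mem_inf]
          constructor
          · have : x0⁻¹ * x.1 = (a⁻¹ * x0)⁻¹ * (a⁻¹ * x.1) := by group
            rw [this]; exact L.mul_mem (L.inv_mem hx0) x.2.1
          · have : x0⁻¹ * x.1 = (a'⁻¹ * x0)⁻¹ * (a'⁻¹ * x.1) := by group
            rw [this]; exact L'.mul_mem (L'.inv_mem hx0') x.2.2⟩ : (L ⊓ L' : Subgroup Q)))
    intro x y hxy
    have := congrArg Subtype.val hxy
    simp only at this
    exact Subtype.ext (mul_left_cancel this)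

private lemma inter_le {Q : Type} [Group Q] [Finite Q] (L L' : Subgroup Q) (a a' : Q) :
    (Nat.card {x : Q // a⁻¹ * x ∈ L ∧ a'⁻¹ * x ∈ L'} : ℝ) ≤
      Nat.card L * (((Nat.gcd L.index L'.index : ℕ) : ℝ) / L'.index) := by
  have hi : (0 : ℝ) < L.index := by
    exact_mod_cast Nat.pos_of_ne_zero Subgroup.index_ne_zero_of_finite
  have hi' : (0 : ℝ) < L'.index := by
    exact_mod_cast Nat.pos_of_ne_zero Subgroup.index_ne_zero_of_finite
  have h1 := inter_le_inf L L' a a'
  have h2 : Nat.lcm L.index L'.index ≤ (L ⊓ L').index := by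
    apply Nat.le_of_dvd (Nat.pos_of_ne_zero Subgroup.index_ne_zero_of_finite)
    exact Nat.lcm_dvd (index_dvd_of_le inf_le_left) (index_dvd_of_le inf_le_right)
  have h3 : Nat.card (L ⊓ L' : Subgroup Q) * (L ⊓ L').index = Nat.card Q := card_mul_index (L ⊓ L')
  have h4 : Nat.card L * L.index = Nat.card Q := card_mul_index L
  have h5 : Nat.gcd L.index L'.index * Nat.lcm L.index L'.index = L.index * L'.index :=
    Nat.gcd_mul_lcm _ _
  have h6 : Nat.card (L ⊓ L' : Subgroup Q) * L'.index ≤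
      Nat.card L * Nat.gcd L.index L'.index := by
    have hl : 0 < Nat.lcm L.index L'.index :=
      Nat.lcm_pos (Nat.pos_of_ne_zero Subgroup.index_ne_zero_of_finite)
        (Nat.pos_of_ne_zero Subgroup.index_ne_zero_of_finite)
    apply Nat.le_of_mul_le_mul_right _ hl
    calc Nat.card (L ⊓ L' : Subgroup Q) * L'.index * Nat.lcm L.index L'.index
        ≤ Nat.card (L ⊓ L' : Subgroup Q) * L'.index * (L ⊓ L').index :=
          Nat.mul_le_mul_left _ h2
      _ = (Nat.card (L ⊓ L' : Subgroup Q) * (L ⊓ L').index) * L'.index := by ring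
      _ = (Nat.card L * L.index) * L'.index := by rw [h3, h4]
      _ = Nat.card L * (L.index * L'.index) := by ring
      _ = Nat.card L * (Nat.gcd L.index L'.index * Nat.lcm L.index L'.index) := by rw [h5]
      _ = Nat.card L * Nat.gcd L.index L'.index * Nat.lcm L.index L'.index := by ring
  rw [← mul_div_assoc, le_div_iff₀ hi']
  have h7 : Nat.card {x : Q // a⁻¹ * x ∈ L ∧ a'⁻¹ * x ∈ L'} * L'.index ≤
      Nat.card L * Nat.gcd L.index L'.index := (Nat.mul_le_mul_right _ h1).trans h6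
  exact_mod_cast h7

private lemma card_coset {Q : Type} [Group Q] [Finite Q] (L : Subgroup Q) (a : Q) :
    Nat.card {x : Q // a⁻¹ * x ∈ L} = Nat.card L := by
  refine Nat.card_congr ⟨fun x => ⟨a⁻¹ * x.1, x.2⟩, fun y => ⟨a * y.1, by simp⟩, ?_, ?_⟩
  · intro x; simp
  · intro y; simp

private lemma half {Q : Type} [Group Q] [Finite Q] (L L' : Subgroup Q) (a a' : Q)
    (hi : L'.index = L.index) (hne : ¬ ∀ x, (a'⁻¹ * x ∈ L' ↔ a⁻¹ * x ∈ L)) :
    2 * Nat.card {x : Q // a⁻¹ * x ∈ L ∧ a'⁻¹ * x ∈ L'} ≤ Nat.card L := by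
  by_cases hLL : L = L'
  · subst hLL
    have hemp : IsEmpty {x : Q // a⁻¹ * x ∈ L ∧ a'⁻¹ * x ∈ L} := by
      constructor
      rintro ⟨y, hy1, hy2⟩
      apply hne
      intro x
      constructor
      · intro hx
        have : a⁻¹ * x = (a⁻¹ * y) * ((a'⁻¹ * y)⁻¹ * (a'⁻¹ * x)) := by group
        rw [this]
        exact L.mul_mem hy1 (L.mul_mem (L.inv_mem hy2) hx)
      · intro hx
        have : a'⁻¹ * x = (a'⁻¹ * y) * ((a⁻¹ * y)⁻¹ * (a⁻¹ * x)) := by group
        rw [this]
        exact L.mul_mem hy2 (L.mul_mem (L.inv_mem hy1) hx)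
    rw [Nat.card_of_isEmpty]
    omega
  · have h1 := inter_le_inf L L' a a'
    have hcard : Nat.card L = Nat.card L' := by
      have h4 := card_mul_index L
      have h5 := card_mul_index L'
      have hpos : 0 < L.index := Nat.pos_of_ne_zero Subgroup.index_ne_zero_of_finite
      apply Nat.eq_of_mul_eq_mul_right hpos
      rw [h4, ← hi, h5]
    have hlt : (L ⊓ L').relIndex L ≠ 1 := by
      intro h
      rw [relIndex_eq_one] at h
      have hle : L ≤ L' := h.trans inf_le_right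
      apply hLL
      exact Subgroup.eq_of_le_of_card_ge hle hcard.ge
    have h2 : Nat.card (L ⊓ L' : Subgroup Q) * (L ⊓ L').relIndex L = Nat.card L := by
      have := card_mul_index ((L ⊓ L').subgroupOf L)
      rw [← this]
      congr 1
      exact (Nat.card_congr (subgroupOfEquivOfLe (inf_le_left : L ⊓ L' ≤ L)).toEquiv).symm
    have h3 : (L ⊓ L').relIndex L ≠ 0 := by
      intro h0
      rw [h0, mul_zero] at h2
      have : 0 < Nat.card L := Nat.card_pos
      omega
    have h4 : 2 ≤ (L ⊓ L').relIndex L := by omega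
    calc 2 * Nat.card {x : Q // a⁻¹ * x ∈ L ∧ a'⁻¹ * x ∈ L'}
        ≤ 2 * Nat.card (L ⊓ L' : Subgroup Q) := Nat.mul_le_mul_left _ h1
      _ ≤ (L ⊓ L').relIndex L * Nat.card (L ⊓ L' : Subgroup Q) := Nat.mul_le_mul_right _ h4
      _ = Nat.card L := by rw [mul_comm, h2]

/-- The fibre count: the number of `ρ` in `R` with `x ρ` in `a H` is `|H ∩ R|` or `0`. -/
private lemma fibre {G : Type} [Group G] [Finite G] (R H : Subgroup G) (a x : G) :
    (Nat.card {ρ : R // a⁻¹ * (x * ρ.1) ∈ H} : ℝ) =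
      open Classical in if Cs R H a x then (Nat.card R : ℝ) / (H.relIndex R : ℝ) else 0 := by
  classical
  have hr : H.relIndex R ≠ 0 := by
    have h2 : Nat.card (H.subgroupOf R) * H.relIndex R = Nat.card R :=
      card_mul_index (H.subgroupOf R)
    intro h0
    rw [h0, mul_zero] at h2
    have : 0 < Nat.card R := Nat.card_pos
    omega
  have hr' : (H.relIndex R : ℝ) ≠ 0 := by exact_mod_cast hr
  split_ifs with h
  · obtain ⟨x0, hx0, hx0H⟩ := h
    let e : {ρ : R // a⁻¹ * (x * ρ.1) ∈ H} ≃ (H.subgroupOf R) :=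
      { toFun := fun ρ => ⟨⟨x0⁻¹ * ρ.1.1, R.mul_mem (R.inv_mem hx0) ρ.1.2⟩, by
          rw [mem_subgroupOf]
          have : x0⁻¹ * (ρ.1.1 : G) = (a⁻¹ * (x * x0))⁻¹ * (a⁻¹ * (x * ρ.1.1)) := by group
          simp only [this]
          exact H.mul_mem (H.inv_mem hx0H) ρ.2⟩
        invFun := fun y => ⟨⟨x0 * y.1.1, R.mul_mem hx0 y.1.2⟩, by
          have : a⁻¹ * (x * (x0 * y.1.1)) = (a⁻¹ * (x * x0)) * y.1.1 := by group
          simp only [this]
          exact H.mul_mem hx0H (mem_subgroupOf.1 y.2)⟩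
        left_inv := fun ρ => by ext; simp
        right_inv := fun y => by ext; simp }
    rw [Nat.card_congr e, eq_div_iff hr']
    exact_mod_cast card_mul_index (H.subgroupOf R)
  · have : IsEmpty {ρ : R // a⁻¹ * (x * ρ.1) ∈ H} := ⟨fun ρ => h ⟨ρ.1.1, ρ.1.2, ρ.2⟩⟩
    rw [Nat.card_of_isEmpty]
    simp

open Classical in
private lemma sum_one {G : Type} [Group G] [Finite G] (R : Subgroup G) {ι : Type}
    [Fintype ι] (H : ι → Subgroup G) (a : ι → G) (hp : ∀ g, ∃! i, (a i)⁻¹ * g ∈ H i) (x : G) :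
    ∑ i, (if Cs R (H i) (a i) x then (1 : ℝ) / ((H i).relIndex R : ℝ) else 0) = 1 := by
  have hR : (0 : ℝ) < Nat.card R := by exact_mod_cast (Nat.card_pos : 0 < Nat.card R)
  have h1 : ∑ i, (Nat.card {ρ : R // (a i)⁻¹ * (x * ρ.1) ∈ H i} : ℝ) = Nat.card R := by
    have h2 : Nat.card R = ∑ i, Nat.card {ρ : R // (a i)⁻¹ * (x * ρ.1) ∈ H i} := by
      have e : R ≃ Σ i, {ρ : R // (a i)⁻¹ * (x * ρ.1) ∈ H i} :=
        { toFun := fun ρ => ⟨(hp (x * ρ.1)).choose, ⟨ρ, (hp (x * ρ.1)).choose_spec.1⟩⟩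
          invFun := fun s => s.2.1
          left_inv := fun ρ => rfl
          right_inv := fun s => by
            obtain ⟨i, ρ, hρ⟩ := s
            have : (hp (x * ρ.1)).choose = i := ((hp (x * ρ.1)).choose_spec.2 i hρ).symm
            subst this
            rfl }
      rw [Nat.card_congr e, Nat.card_sigma]
    rw [h2]
    push_cast
    rfl
  have h3 : ∀ i, (if Cs R (H i) (a i) x then (1 : ℝ) / ((H i).relIndex R : ℝ) else 0) =
      (Nat.card {ρ : R // (a i)⁻¹ * (x * ρ.1) ∈ H i} : ℝ) / Nat.card R := by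
    intro i
    rw [fibre]
    split_ifs
    · field_simp
    · simp
  rw [Finset.sum_congr rfl (fun i _ => h3 i), ← Finset.sum_div, h1, div_self hR.ne']

open Classical in
theorem weights {G : Type} [Group G] [Finite G] (R : Subgroup G) [R.Normal] {ι : Type}
    [Fintype ι] (H : ι → Subgroup G) (a : ι → G) (hp : ∀ g, ∃! i, (a i)⁻¹ * g ∈ H i) (i0 : ι)
    (hi0 : ¬ R ≤ H i0) :
    ∃ (w : ι → ℝ) (E : ι → Prop), ∑ i with ¬ R ≤ H i, w i = 1 ∧
      (∀ i, w i ≤ ((Nat.gcd (H i0 ⊔ R).index (H i ⊔ R).index : ℕ) : ℝ) /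
        (((H i ⊔ R).index : ℝ) * ((H i).relIndex R : ℝ))) ∧
      (∀ i, (H i ⊔ R).index = (H i0 ⊔ R).index →
        E i ∨ w i ≤ 1 / (2 * ((H i).relIndex R : ℝ))) ∧
      ∀ i, E i → ∀ j, j ≠ i → w j = 0 ∨ ¬ ((H i).relIndex R).Coprime ((H j).relIndex R) := by
  have : Fintype G := Fintype.ofFinite G
  have hrpos : ∀ i, (0 : ℝ) < ((H i).relIndex R : ℝ) := by
    intro i
    have hr : (H i).relIndex R ≠ 0 := by
      have h2 : Nat.card ((H i).subgroupOf R) * (H i).relIndex R = Nat.card R :=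
        card_mul_index ((H i).subgroupOf R)
      intro h0
      rw [h0, mul_zero] at h2
      have : 0 < Nat.card R := Nat.card_pos
      omega
    exact_mod_cast Nat.pos_of_ne_zero hr
  set D : ℝ := (Nat.card (H i0 ⊔ R : Subgroup G) : ℝ) with hD
  have hDpos : 0 < D := by
    rw [hD]; exact_mod_cast (Nat.card_pos : 0 < Nat.card (H i0 ⊔ R : Subgroup G))
  let N : ι → ℕ := fun i => Nat.card {x : G // (a i0)⁻¹ * x ∈ H i0 ⊔ R ∧ (a i)⁻¹ * x ∈ H i ⊔ R}
  refine ⟨fun i => (N i : ℝ) / (D * ((H i).relIndex R : ℝ)),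
    fun i => ∀ x, Cs R (H i) (a i) x ↔ Cs R (H i0) (a i0) x, ?_, ?_, ?_, ?_⟩
  · -- the sum of the weights
    have hz : ∀ i, R ≤ H i → N i = 0 := by
      intro i hi
      have : IsEmpty {x : G // (a i0)⁻¹ * x ∈ H i0 ⊔ R ∧ (a i)⁻¹ * x ∈ H i ⊔ R} := by
        constructor
        rintro ⟨x, hx0, hx⟩
        rw [← cs_iff] at hx0
        obtain ⟨ρ, hρ, h⟩ := hx0
        rw [sup_eq_left.2 hi] at hx
        have h2 : (a i)⁻¹ * (x * ρ) ∈ H i := by
          rw [← mul_assoc]; exact (H i).mul_mem hx (hi hρ)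
        have h3 := (hp (x * ρ)).unique h h2
        rw [h3] at hi0
        exact hi0 hi
      exact Nat.card_of_isEmpty
    have h1 : ∑ i with ¬ R ≤ H i, (N i : ℝ) / (D * ((H i).relIndex R : ℝ)) =
        ∑ i, (N i : ℝ) / (D * ((H i).relIndex R : ℝ)) := by
      rw [Finset.sum_filter]
      apply Finset.sum_congr rfl
      intro i _
      by_cases h : R ≤ H i
      · rw [hz i h]
        simp
      · rw [if_pos h]
    rw [h1]
    have h2 : ∀ i, (N i : ℝ) = ∑ x : G, if Cs R (H i0) (a i0) x ∧ Cs R (H i) (a i) x then (1 : ℝ)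
        else 0 := by
      intro i
      rw [Finset.sum_boole]
      have : N i = (Finset.univ.filter fun x : G =>
          Cs R (H i0) (a i0) x ∧ Cs R (H i) (a i) x).card := by
        show Nat.card _ = _
        rw [Nat.card_eq_fintype_card, Fintype.card_subtype]
        congr 1
        ext x
        simp only [Finset.mem_filter, Finset.mem_univ, true_and]
        rw [cs_iff, cs_iff]
      rw [this]
    have h3 : D = ∑ x : G, if Cs R (H i0) (a i0) x then (1 : ℝ) else 0 := by
      rw [Finset.sum_boole, hD, ← card_coset (H i0 ⊔ R) (a i0), Nat.card_eq_fintype_card,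
        Fintype.card_subtype]
      congr 2
      ext x
      simp only [Finset.mem_filter, Finset.mem_univ, true_and]
      rw [cs_iff]
    have h4 : ∑ i, (N i : ℝ) / (D * ((H i).relIndex R : ℝ)) =
        (∑ x : G, if Cs R (H i0) (a i0) x then (1 : ℝ) else 0) / D := by
      have h5 : ∀ i, (N i : ℝ) / (D * ((H i).relIndex R : ℝ)) =
          (∑ x : G, if Cs R (H i0) (a i0) x then
            (if Cs R (H i) (a i) x then (1 : ℝ) / ((H i).relIndex R : ℝ) else 0) else 0) / D := by
        intro i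
        rw [mul_comm D, ← div_div, h2 i, Finset.sum_div]
        congr 1
        apply Finset.sum_congr rfl
        intro x _
        by_cases hc0 : Cs R (H i0) (a i0) x
        · by_cases hc1 : Cs R (H i) (a i) x
          · simp [hc0, hc1]
          · simp [hc1]
        · simp [hc0]
      rw [Finset.sum_congr rfl (fun i _ => h5 i), ← Finset.sum_div]
      congr 1
      rw [Finset.sum_comm]
      apply Finset.sum_congr rfl
      intro x _
      split_ifs
      · exact sum_one R H a hp x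
      · simp
    rw [h4, ← h3, div_self hDpos.ne']
  · -- the bound by the greatest common divisor
    intro i
    have h := inter_le (H i0 ⊔ R) (H i ⊔ R) (a i0) (a i)
    have hpos : 0 < D * ((H i).relIndex R : ℝ) := mul_pos hDpos (hrpos i)
    have hi' : (0 : ℝ) < (H i ⊔ R).index := by
      exact_mod_cast Nat.pos_of_ne_zero Subgroup.index_ne_zero_of_finite
    have h2 : (N i : ℝ) ≤ D * (((Nat.gcd (H i0 ⊔ R).index (H i ⊔ R).index : ℕ) : ℝ) /
      (H i ⊔ R).index) := h
    show (N i : ℝ) / (D * ((H i).relIndex R : ℝ)) ≤ _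
    rw [div_le_iff₀ hpos]
    refine h2.trans (le_of_eq ?_)
    have := (hrpos i).ne'
    field_simp
  · -- equal index
    intro i hi
    by_cases hE : ∀ x, Cs R (H i) (a i) x ↔ Cs R (H i0) (a i0) x
    · exact Or.inl hE
    · right
      have hne : ¬ ∀ x, ((a i)⁻¹ * x ∈ H i ⊔ R ↔ (a i0)⁻¹ * x ∈ H i0 ⊔ R) := by
        intro h
        apply hE
        intro x
        rw [cs_iff, cs_iff]
        exact h x
      have h := half (H i0 ⊔ R) (H i ⊔ R) (a i0) (a i) hi hne
      have h2 : 2 * (N i : ℝ) ≤ D := by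
        rw [hD]; exact_mod_cast h
      have hpos : 0 < D * ((H i).relIndex R : ℝ) := mul_pos hDpos (hrpos i)
      show (N i : ℝ) / (D * ((H i).relIndex R : ℝ)) ≤ _
      rw [div_le_div_iff₀ hpos (mul_pos two_pos (hrpos i))]
      have := (hrpos i)
      nlinarith
  · -- coprime indices
    intro i hE j hji
    by_cases hc : ((H i).relIndex R).Coprime ((H j).relIndex R)
    · left
      have : IsEmpty {x : G // (a i0)⁻¹ * x ∈ H i0 ⊔ R ∧ (a j)⁻¹ * x ∈ H j ⊔ R} := by
        constructor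
        rintro ⟨x, hx0, hx⟩
        rw [← cs_iff] at hx0 hx
        have hx1 := (hE x).2 hx0
        obtain ⟨ρ, _, h1, h2⟩ := meet_of_coprime_rel R (H i) (H j) hc (a i) (a j) x hx1 hx
        exact hji ((hp (x * ρ)).unique h2 h1)
      have hN : N j = 0 := Nat.card_of_isEmpty
      show (N j : ℝ) / (D * ((H j).relIndex R : ℝ)) = 0
      rw [hN]
      simp
    · exact Or.inr hc

end Pool.Agent.HL
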