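import Pool.Agent.HL.Defs
import Pool.Agent.HL.Base
import Pool.Agent.HL.NumGen
import Pool.Agent.HL.Num23
import Pool.Agent.HL.RSub
import Pool.Agent.HL.Wts
import Pool.Agent.HL.Quot

/-!
# Project HL: the inductive step (row HL-17)
-/

set_option autoImplicit false

namespace Pool.Agent.HL


theorem hs_step (s t : Finset ℕ) (ht : ∀ p ∈ t, p.Prime) (hst : s ⊆ t)
    (h : ∑ q ∈ t \ s, (1 : ℝ) / ((q : ℝ) - 1) ≤ eps s) (hs : HSfor s) : HSfor t := by
  classical
  intro G _ _ hG ι _ H a hH hp
  by_contra hcon
  have hcon' := hcon
  push Not at hcon'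
  have hne : Nat.card G ≠ 0 := Nat.card_pos.ne'
  obtain ⟨R, hRn, hRi, hRH⟩ := exists_R G (t \ s) (fun p hp => ht p (Finset.sdiff_subset hp))
  have hRs : R.index.primeFactors ⊆ s := by
    intro p hpm
    have h1 : p ∈ t := hG (Nat.primeFactors_mono (Subgroup.index_dvd_card R) hne hpm)
    by_contra h2
    exact hRi p (Finset.mem_sdiff.2 ⟨h1, h2⟩) (Nat.dvd_of_mem_primeFactors hpm)
  by_cases hall : ∀ i, R ≤ H i
  · have hQ : HS (G ⧸ R) := by
      refine hs (G ⧸ R) ?_
      rw [← Subgroup.index_eq_card]
      exact hRs
    exact hcon (hs_quot R hQ H a hall hH hp)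
  · push Not at hall
    have hU : (Finset.univ.filter fun i => ¬ R ≤ H i).Nonempty := by
      obtain ⟨i, hi⟩ := hall
      exact ⟨i, Finset.mem_filter.2 ⟨Finset.mem_univ i, hi⟩⟩
    obtain ⟨i0, hi0, hmin⟩ := Finset.exists_min_image _ (fun i => (H i ⊔ R).index) hU
    have hi0' := (Finset.mem_filter.1 hi0).2
    obtain ⟨w, E, hw1, hw2, hw3, hw4⟩ := weights R H a hp i0 hi0'
    let W : Wt ι s t (Nat.card G) :=
      { U := Finset.univ.filter fun i => ¬ R ≤ H i
        q := fun i => (H i ⊔ R).index
        r := fun i => (H i).relIndex R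
        w := w
        E := E
        i0 := i0
        hi0 := hi0
        hmin := hmin
        hinj := by
          intro i _ j _ hij
          rw [← index_mul, ← index_mul] at hij
          by_contra hne'
          exact hcon' i j hne' hij
        hq := by
          intro i _
          refine (Nat.primeFactors_mono (Subgroup.index_dvd_of_le le_sup_right) ?_).trans hRs
          exact Subgroup.index_ne_zero_of_finite
        hd := by
          intro i _
          rw [← index_mul]
          exact Subgroup.index_dvd_card _
        hr := by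
          intro i hi
          by_contra h1
          push Not at h1
          exact (Finset.mem_filter.1 hi).2 (hRH (H i) h1)
        hw := fun i _ => hw2 i
        hE := fun i _ => hw3 i
        hc := fun i _ hi j _ => hw4 i hi j }
    have hlt : ∑ i ∈ W.U, W.w i < 1 := by
      unfold eps at h
      split_ifs at h with h23
      · exact num_23 s t _ ht hst h23 h hne hG W
      · refine num_gen s t _ ht hst ?_ h hne hG W
        rw [Finset.nonempty_iff_ne_empty]
        rintro rfl
        exact h23 (Finset.empty_subset _)
    have heq : ∑ i ∈ W.U, W.w i = 1 := hw1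
    rw [heq] at hlt
    exact lt_irrefl _ hlt

theorem hs_layered (s : Finset ℕ) (hs : ∀ p ∈ s, p.Prime) (h : Layered s) : HSfor s := by
  induction h with
  | base s h => exact hs_base s hs h
  | step s t _ hst h ih => exact hs_step s t hs hst h (ih fun p hp => hs p (hst hp))

end Pool.Agent.HL
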