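import Pool.Agent.HL.Defs

/-!
# Project HL (MP_961d7e_lc), row HL-1: the sum of the weights over the ratios `≥ c`
-/

set_option autoImplicit false

namespace Pool.Agent.HL

private theorem zs_geo (p : ℝ) (hp : 1 < p) (S : Finset ℕ) (i0 : ℕ) (h : ∀ e ∈ S, i0 ≤ e) :
    ∑ e ∈ S, (p ^ e)⁻¹ ≤ (p / (p - 1)) / p ^ i0 := by
  have hp0 : 0 < p := by linarith
  have hsub : S ⊆ Finset.Ico i0 (S.sup id + 1) := by
    intro e he
    rw [Finset.mem_Ico]
    exact ⟨h e he, Nat.lt_succ_of_le (Finset.le_sup (f := id) he)⟩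
  have h1 : ∑ e ∈ S, (p ^ e)⁻¹ ≤ ∑ e ∈ Finset.Ico i0 (S.sup id + 1), (p⁻¹) ^ e := by
    refine le_trans (Finset.sum_le_sum_of_subset_of_nonneg hsub (fun e _ _ => by positivity))
      (le_of_eq (Finset.sum_congr rfl (fun e _ => (inv_pow p e).symm)))
  have h2 := geom_sum_Ico_le_of_lt_one (x := p⁻¹) (m := i0) (n := S.sup id + 1)
    (by positivity) (inv_lt_one_of_one_lt₀ hp)
  refine le_trans h1 (le_trans h2 (le_of_eq ?_))
  have h3 : p - 1 ≠ 0 := by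
    intro h
    linarith
  have h4 : 1 - p⁻¹ ≠ 0 := by
    have := inv_lt_one_of_one_lt₀ hp
    intro h
    linarith
  have h5 : 1 - p⁻¹ = (p - 1) / p := by
    field_simp
  rw [h5, inv_pow]
  field_simp

private theorem zs_min (p : ℝ) (hp : 1 < p) (S : Finset ℕ) (X : ℝ) (hX : 0 < X)
    (h : ∀ e ∈ S, X ≤ p ^ e) : ∑ e ∈ S, (p ^ e)⁻¹ ≤ (p / (p - 1)) / X := by
  have hp0 : 0 < p := by linarith
  have hp1 : 0 < p - 1 := by linarith
  rcases S.eq_empty_or_nonempty with rfl | hne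
  · rw [Finset.sum_empty]
    positivity
  · have h1 := zs_geo p hp S (S.min' hne) (fun e he => Finset.min'_le S e he)
    refine le_trans h1 ?_
    have h2 := h _ (Finset.min'_mem S hne)
    exact div_le_div_of_nonneg_left (by positivity) hX h2

private theorem zs_side (p q : ℝ) (hp : 1 < p) (hq : 1 < q) (c : ℝ) (hc : 0 < c) (K : ℕ)
    (hK : 1 ≤ K) (i : ℕ → ℕ)
    (hi : ∀ k, 1 ≤ k → k < K → ∀ e : ℕ, c * q ^ k ≤ p ^ e → i k ≤ e)
    (S : Finset (ℕ × ℕ)) (hS : ∀ x ∈ S, 1 ≤ x.2 ∧ c * q ^ x.2 ≤ p ^ x.1) :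
    ∑ x ∈ S, (p ^ x.1)⁻¹ ≤ ∑ k ∈ Finset.Ico 1 K, (p / (p - 1)) / p ^ (i k)
      + (p / (p - 1)) * (q / (q - 1)) / (c * q ^ K) := by
  classical
  have hp0 : 0 < p := by linarith
  have hq0 : 0 < q := by linarith
  have hp1 : 0 < p - 1 := by linarith
  have hq1 : 0 < q - 1 := by linarith
  obtain ⟨N, hN⟩ : ∃ N, N = max K (S.sup Prod.snd + 1) := ⟨_, rfl⟩
  have hKN : K ≤ N := hN ▸ le_max_left _ _
  have hmaps : ∀ x ∈ S, x.2 ∈ Finset.Ico 1 N := by
    intro x hx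
    rw [Finset.mem_Ico]
    refine ⟨(hS x hx).1, ?_⟩
    rw [hN]
    exact lt_of_lt_of_le (Nat.lt_succ_of_le (Finset.le_sup (f := Prod.snd) hx))
      (le_max_right _ _)
  rw [← Finset.sum_fiberwise_of_maps_to hmaps]
  have hfib : ∀ k ∈ Finset.Ico 1 N, ∑ x ∈ S with x.2 = k, (p ^ x.1)⁻¹ ≤
      if k < K then (p / (p - 1)) / p ^ (i k) else (p / (p - 1)) / (c * q ^ k) := by
    intro k hk
    rw [Finset.mem_Ico] at hk
    have himg : ∑ x ∈ S with x.2 = k, (p ^ x.1)⁻¹ =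
        ∑ e ∈ (S.filter (fun x => x.2 = k)).image Prod.fst, (p ^ e)⁻¹ := by
      rw [Finset.sum_image]
      intro x hx y hy hxy
      simp only [Finset.coe_filter, Set.mem_setOf_eq] at hx hy
      exact Prod.ext hxy (hx.2.trans hy.2.symm)
    rw [himg]
    have hmem : ∀ e ∈ (S.filter (fun x => x.2 = k)).image Prod.fst, c * q ^ k ≤ p ^ e := by
      intro e he
      rw [Finset.mem_image] at he
      obtain ⟨x, hx, rfl⟩ := he
      rw [Finset.mem_filter] at hx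
      have := (hS x hx.1).2
      rwa [hx.2] at this
    split_ifs with hkK
    · exact zs_geo p hp _ _ (fun e he => hi k hk.1 hkK e (hmem e he))
    · exact zs_min p hp _ _ (by positivity) hmem
  refine le_trans (Finset.sum_le_sum hfib) ?_
  rw [← Finset.sum_Ico_consecutive _ hK hKN]
  refine add_le_add (le_of_eq (Finset.sum_congr rfl (fun k hk => ?_))) ?_
  · rw [Finset.mem_Ico] at hk
    rw [if_pos hk.2]
  · have h1 : ∑ k ∈ Finset.Ico K N,
        (if k < K then (p / (p - 1)) / p ^ (i k) else (p / (p - 1)) / (c * q ^ k)) =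
        (p / (p - 1)) / c * ∑ k ∈ Finset.Ico K N, (q ^ k)⁻¹ := by
      rw [Finset.mul_sum]
      refine Finset.sum_congr rfl (fun k hk => ?_)
      rw [Finset.mem_Ico] at hk
      rw [if_neg (not_lt.mpr hk.1)]
      field_simp
    rw [h1]
    have h2 := zs_geo q hq (Finset.Ico K N) K (fun e he => (Finset.mem_Ico.mp he).1)
    refine le_trans (mul_le_mul_of_nonneg_left h2 (by positivity)) (le_of_eq ?_)
    field_simp

private theorem zs_rect (N : ℕ) :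
    ∑ y ∈ Finset.range N ×ˢ Finset.range N, ((2 : ℝ) ^ y.1 * 3 ^ y.2)⁻¹ ≤ 3 := by
  have h1 : ∑ y ∈ Finset.range N ×ˢ Finset.range N, ((2 : ℝ) ^ y.1 * 3 ^ y.2)⁻¹ =
      (∑ a ∈ Finset.range N, ((2 : ℝ) ^ a)⁻¹) * ∑ b ∈ Finset.range N, ((3 : ℝ) ^ b)⁻¹ := by
    rw [Finset.sum_mul_sum, Finset.sum_product]
    refine Finset.sum_congr rfl (fun a _ => Finset.sum_congr rfl (fun b _ => ?_))
    rw [mul_inv]
  have h2 := zs_geo 2 (by norm_num) (Finset.range N) 0 (fun e _ => Nat.zero_le e)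
  have h3 := zs_geo 3 (by norm_num) (Finset.range N) 0 (fun e _ => Nat.zero_le e)
  have h2' : ∑ a ∈ Finset.range N, ((2 : ℝ) ^ a)⁻¹ ≤ 2 := by
    refine le_trans h2 ?_
    norm_num
  have h3' : ∑ a ∈ Finset.range N, ((3 : ℝ) ^ a)⁻¹ ≤ 3 / 2 := by
    refine le_trans h3 ?_
    norm_num
  rw [h1]
  have h4 : 0 ≤ ∑ b ∈ Finset.range N, ((3 : ℝ) ^ b)⁻¹ :=
    Finset.sum_nonneg (fun _ _ => by positivity)
  calc _ ≤ 2 * (3 / 2 : ℝ) := mul_le_mul h2' h3' h4 (by norm_num)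
    _ = 3 := by norm_num

private theorem zs_B (c : ℝ) (hc : 1 ≤ c) (x : ℤ × ℤ) (hx : c ≤ rz x) (h2 : x.2 < 0) :
    ∃ e k : ℕ, x.1 = e ∧ x.2 = -(k : ℤ) ∧ 1 ≤ k ∧ c * 3 ^ k ≤ 2 ^ e ∧ wz x = ((2 : ℝ) ^ e)⁻¹ := by
  obtain ⟨k, hk⟩ : ∃ k : ℕ, x.2 = -(k : ℤ) := ⟨(-x.2).toNat, by omega⟩
  have hk1 : 1 ≤ k := by omega
  have h3 : rz x = (2 : ℝ) ^ x.1 * ((3 : ℝ) ^ k)⁻¹ := by
    unfold rz
    rw [hk, zpow_neg, zpow_natCast]
  have h4 : c * 3 ^ k ≤ (2 : ℝ) ^ x.1 := by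
    rw [h3] at hx
    have h5 : (0 : ℝ) < 3 ^ k := by positivity
    calc c * 3 ^ k ≤ (2 : ℝ) ^ x.1 * ((3 : ℝ) ^ k)⁻¹ * 3 ^ k :=
          mul_le_mul_of_nonneg_right hx h5.le
      _ = (2 : ℝ) ^ x.1 := by
          rw [mul_assoc, inv_mul_cancel₀ h5.ne', mul_one]
  have h6 : 0 ≤ x.1 := by
    by_contra hneg
    push Not at hneg
    have h7 : (2 : ℝ) ^ x.1 < 1 := zpow_lt_one_of_neg₀ (by norm_num) hneg
    have h8 : (1 : ℝ) ≤ 3 ^ k := one_le_pow₀ (by norm_num)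
    nlinarith
  obtain ⟨e, he⟩ : ∃ e : ℕ, x.1 = e := ⟨x.1.toNat, by omega⟩
  refine ⟨e, k, he, hk, hk1, ?_, ?_⟩
  · rw [he, zpow_natCast] at h4
    exact h4
  · unfold wz
    have h9 : max x.1 0 = (e : ℤ) := by omega
    have h10 : max x.2 0 = 0 := by omega
    rw [h9, h10, zpow_natCast, zpow_zero, mul_one]

private theorem zs_C (c : ℝ) (hc : 1 ≤ c) (x : ℤ × ℤ) (hx : c ≤ rz x) (h2 : x.1 < 0) :
    ∃ f k : ℕ, x.2 = f ∧ x.1 = -(k : ℤ) ∧ 1 ≤ k ∧ c * 2 ^ k ≤ 3 ^ f ∧ wz x = ((3 : ℝ) ^ f)⁻¹ := by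
  obtain ⟨k, hk⟩ : ∃ k : ℕ, x.1 = -(k : ℤ) := ⟨(-x.1).toNat, by omega⟩
  have hk1 : 1 ≤ k := by omega
  have h3 : rz x = (3 : ℝ) ^ x.2 * ((2 : ℝ) ^ k)⁻¹ := by
    unfold rz
    rw [hk, zpow_neg, zpow_natCast, mul_comm]
  have h4 : c * 2 ^ k ≤ (3 : ℝ) ^ x.2 := by
    rw [h3] at hx
    have h5 : (0 : ℝ) < 2 ^ k := by positivity
    calc c * 2 ^ k ≤ (3 : ℝ) ^ x.2 * ((2 : ℝ) ^ k)⁻¹ * 2 ^ k :=
          mul_le_mul_of_nonneg_right hx h5.le
      _ = (3 : ℝ) ^ x.2 := by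
          rw [mul_assoc, inv_mul_cancel₀ h5.ne', mul_one]
  have h6 : 0 ≤ x.2 := by
    by_contra hneg
    push Not at hneg
    have h7 : (3 : ℝ) ^ x.2 < 1 := zpow_lt_one_of_neg₀ (by norm_num) hneg
    have h8 : (1 : ℝ) ≤ 2 ^ k := one_le_pow₀ (by norm_num)
    nlinarith
  obtain ⟨f, hf⟩ : ∃ f : ℕ, x.2 = f := ⟨x.2.toNat, by omega⟩
  refine ⟨f, k, hf, hk, hk1, ?_, ?_⟩
  · rw [hf, zpow_natCast] at h4
    exact h4
  · unfold wz
    have h9 : max x.2 0 = (f : ℤ) := by omega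
    have h10 : max x.1 0 = 0 := by omega
    rw [h9, h10, zpow_natCast, zpow_zero, one_mul]

theorem zsum (c : ℝ) (hc : 1 ≤ c) (K2 K3 : ℕ) (hK2 : 1 ≤ K2) (hK3 : 1 ≤ K3) (i j : ℕ → ℕ)
    (hi : ∀ k, 1 ≤ k → k < K2 → ∀ e : ℕ, c * 3 ^ k ≤ 2 ^ e → i k ≤ e)
    (hj : ∀ k, 1 ≤ k → k < K3 → ∀ f : ℕ, c * 2 ^ k ≤ 3 ^ f → j k ≤ f)
    (E : Finset (ℕ × ℕ)) (hE : ∀ x ∈ E, (2 : ℝ) ^ x.1 * 3 ^ x.2 < c)
    (T : Finset (ℤ × ℤ)) (hT : ∀ x ∈ T, c ≤ rz x) :
    ∑ x ∈ T, wz x ≤ 3 - ∑ x ∈ E, ((2 : ℝ) ^ x.1 * 3 ^ x.2)⁻¹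
      + ∑ k ∈ Finset.Ico 1 K2, 2 / (2 : ℝ) ^ (i k) + 3 / (c * 3 ^ K2)
      + ∑ k ∈ Finset.Ico 1 K3, 3 / (2 * (3 : ℝ) ^ (j k)) + 3 / (c * 2 ^ K3) := by
  classical
  have hc0 : 0 < c := by linarith
  -- the part with negative second exponent
  have hB : ∑ x ∈ T.filter (fun x => x.2 < 0), wz x ≤
      ∑ k ∈ Finset.Ico 1 K2, 2 / (2 : ℝ) ^ (i k) + 3 / (c * 3 ^ K2) := by
    have h1 : ∑ x ∈ T.filter (fun x => x.2 < 0), wz x =
        ∑ y ∈ (T.filter (fun x => x.2 < 0)).image (fun x => (x.1.toNat, (-x.2).toNat)),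
          ((2 : ℝ) ^ y.1)⁻¹ := by
      rw [Finset.sum_image]
      · refine Finset.sum_congr rfl (fun x hx => ?_)
        rw [Finset.mem_filter] at hx
        obtain ⟨e, k, he, hk, -, -, hw⟩ := zs_B c hc x (hT x hx.1) hx.2
        rw [hw, he, Int.toNat_natCast]
      · intro x hx y hy hxy
        simp only [Finset.coe_filter, Set.mem_setOf_eq] at hx hy
        obtain ⟨e, k, he, hk, -, -, -⟩ := zs_B c hc x (hT x hx.1) hx.2
        obtain ⟨e', k', he', hk', -, -, -⟩ := zs_B c hc y (hT y hy.1) hy.2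
        simp only [Prod.mk.injEq] at hxy
        refine Prod.ext ?_ ?_
        · omega
        · omega
    rw [h1]
    have h2 := zs_side 2 3 (by norm_num) (by norm_num) c hc0 K2 hK2 i hi
      ((T.filter (fun x => x.2 < 0)).image (fun x => (x.1.toNat, (-x.2).toNat))) (by
        intro y hy
        rw [Finset.mem_image] at hy
        obtain ⟨x, hx, rfl⟩ := hy
        rw [Finset.mem_filter] at hx
        obtain ⟨e, k, he, hk, hk1, hle, -⟩ := zs_B c hc x (hT x hx.1) hx.2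
        have h3 : x.1.toNat = e := by omega
        have h4 : (-x.2).toNat = k := by omega
        simp only [h3, h4]
        exact ⟨hk1, hle⟩)
    refine le_trans h2 (le_of_eq ?_)
    norm_num
  have hC : ∑ x ∈ T.filter (fun x => x.1 < 0), wz x ≤
      ∑ k ∈ Finset.Ico 1 K3, 3 / (2 * (3 : ℝ) ^ (j k)) + 3 / (c * 2 ^ K3) := by
    have h1 : ∑ x ∈ T.filter (fun x => x.1 < 0), wz x =
        ∑ y ∈ (T.filter (fun x => x.1 < 0)).image (fun x => (x.2.toNat, (-x.1).toNat)),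
          ((3 : ℝ) ^ y.1)⁻¹ := by
      rw [Finset.sum_image]
      · refine Finset.sum_congr rfl (fun x hx => ?_)
        rw [Finset.mem_filter] at hx
        obtain ⟨e, k, he, hk, -, -, hw⟩ := zs_C c hc x (hT x hx.1) hx.2
        rw [hw, he, Int.toNat_natCast]
      · intro x hx y hy hxy
        simp only [Finset.coe_filter, Set.mem_setOf_eq] at hx hy
        obtain ⟨e, k, he, hk, -, -, -⟩ := zs_C c hc x (hT x hx.1) hx.2
        obtain ⟨e', k', he', hk', -, -, -⟩ := zs_C c hc y (hT y hy.1) hy.2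
        simp only [Prod.mk.injEq] at hxy
        refine Prod.ext ?_ ?_
        · omega
        · omega
    rw [h1]
    have h2 := zs_side 3 2 (by norm_num) (by norm_num) c hc0 K3 hK3 j hj
      ((T.filter (fun x => x.1 < 0)).image (fun x => (x.2.toNat, (-x.1).toNat))) (by
        intro y hy
        rw [Finset.mem_image] at hy
        obtain ⟨x, hx, rfl⟩ := hy
        rw [Finset.mem_filter] at hx
        obtain ⟨e, k, he, hk, hk1, hle, -⟩ := zs_C c hc x (hT x hx.1) hx.2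
        have h3 : x.2.toNat = e := by omega
        have h4 : (-x.1).toNat = k := by omega
        simp only [h3, h4]
        exact ⟨hk1, hle⟩)
    refine le_trans h2 (le_of_eq ?_)
    congr 1
    · refine Finset.sum_congr rfl (fun k _ => ?_)
      field_simp
      norm_num
    · field_simp
      norm_num
  -- the part with nonnegative exponents
  obtain ⟨TA, hTA⟩ : ∃ TA, TA = T.filter (fun x => 0 ≤ x.1 ∧ 0 ≤ x.2) := ⟨_, rfl⟩
  have hA : ∑ x ∈ TA, wz x ≤ 3 - ∑ x ∈ E, ((2 : ℝ) ^ x.1 * 3 ^ x.2)⁻¹ := by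
    have hmem : ∀ x ∈ TA, ∃ a b : ℕ, x.1 = a ∧ x.2 = b ∧ c ≤ 2 ^ a * 3 ^ b ∧
        wz x = ((2 : ℝ) ^ a * 3 ^ b)⁻¹ := by
      intro x hx
      rw [hTA, Finset.mem_filter] at hx
      obtain ⟨a, ha⟩ : ∃ a : ℕ, x.1 = a := ⟨x.1.toNat, by omega⟩
      obtain ⟨b, hb⟩ : ∃ b : ℕ, x.2 = b := ⟨x.2.toNat, by omega⟩
      refine ⟨a, b, ha, hb, ?_, ?_⟩
      · have h := hT x hx.1
        unfold rz at h
        rw [ha, hb, zpow_natCast, zpow_natCast] at h
        exact h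
      · unfold wz
        have h9 : max x.1 0 = (a : ℤ) := by omega
        have h10 : max x.2 0 = (b : ℤ) := by omega
        rw [h9, h10, zpow_natCast, zpow_natCast]
    have h1 : ∑ x ∈ TA, wz x =
        ∑ y ∈ TA.image (fun x => (x.1.toNat, x.2.toNat)), ((2 : ℝ) ^ y.1 * 3 ^ y.2)⁻¹ := by
      rw [Finset.sum_image]
      · refine Finset.sum_congr rfl (fun x hx => ?_)
        obtain ⟨a, b, ha, hb, -, hw⟩ := hmem x hx
        rw [hw, ha, hb, Int.toNat_natCast, Int.toNat_natCast]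
      · intro x hx y hy hxy
        obtain ⟨a, b, ha, hb, -, -⟩ := hmem x hx
        obtain ⟨a', b', ha', hb', -, -⟩ := hmem y hy
        simp only [Prod.mk.injEq] at hxy
        refine Prod.ext ?_ ?_
        · omega
        · omega
    have hdisj : Disjoint (TA.image (fun x => (x.1.toNat, x.2.toNat))) E := by
      rw [Finset.disjoint_left]
      intro y hy hyE
      rw [Finset.mem_image] at hy
      obtain ⟨x, hx, rfl⟩ := hy
      obtain ⟨a, b, ha, hb, hle, -⟩ := hmem x hx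
      have h3 := hE _ hyE
      have h4 : x.1.toNat = a := by omega
      have h5 : x.2.toNat = b := by omega
      simp only [h4, h5] at h3
      linarith
    have h2 : ∑ y ∈ TA.image (fun x => (x.1.toNat, x.2.toNat)) ∪ E,
        ((2 : ℝ) ^ y.1 * 3 ^ y.2)⁻¹ ≤ 3 := by
      obtain ⟨S, hS⟩ : ∃ S, S = TA.image (fun x => (x.1.toNat, x.2.toNat)) ∪ E := ⟨_, rfl⟩
      rw [← hS]
      obtain ⟨N, hN⟩ : ∃ N, N = max (S.sup Prod.fst) (S.sup Prod.snd) + 1 := ⟨_, rfl⟩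
      refine le_trans (Finset.sum_le_sum_of_subset_of_nonneg
        (t := Finset.range N ×ˢ Finset.range N) ?_ (fun _ _ _ => by positivity)) (zs_rect N)
      intro y hy
      rw [Finset.mem_product, Finset.mem_range, Finset.mem_range, hN]
      have h3 := Finset.le_sup (f := Prod.fst) hy
      have h4 := Finset.le_sup (f := Prod.snd) hy
      constructor
      · exact Nat.lt_succ_of_le (le_trans h3 (le_max_left _ _))
      · exact Nat.lt_succ_of_le (le_trans h4 (le_max_right _ _))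
    rw [Finset.sum_union hdisj] at h2
    rw [h1]
    linarith
  -- splitting
  have hnn : ∀ x : ℤ × ℤ, 0 ≤ wz x := by
    intro x
    unfold wz
    positivity
  have hsplit : ∑ x ∈ T, wz x ≤ ∑ x ∈ TA, wz x + ∑ x ∈ T.filter (fun x => x.2 < 0), wz x +
      ∑ x ∈ T.filter (fun x => x.1 < 0), wz x := by
    rw [hTA, Finset.sum_filter, Finset.sum_filter, Finset.sum_filter, ← Finset.sum_add_distrib,
      ← Finset.sum_add_distrib]
    refine Finset.sum_le_sum (fun x _ => ?_)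
    have h0 := hnn x
    by_cases h1 : x.2 < 0
    · rw [if_neg (by omega), if_pos h1]
      split_ifs <;> linarith
    · by_cases h2 : x.1 < 0
      · rw [if_neg (by omega), if_neg h1, if_pos h2]
        linarith
      · rw [if_pos (by omega), if_neg h1, if_neg h2]
        linarith
  linarith

end Pool.Agent.HL
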